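import Pool.Agent.Y18.BSD.Tw
import Pool.Agent.Y702.M.All
import Pool.Agent.W165.CE.FF

/-!
The newform `η(z)² η(11z)²` of the curve `X_0(11)` has all the properties of the newform of the
short Weierstrass equation `y² = x³ - 13392 x - 1080432`.
-/

set_option autoImplicit false

open UpperHalfPlane MatrixGroups CongruenceSubgroup Filter Topology MeasureTheory

namespace Pool.Agent.Y18.BSD.Eleven

open Pool.Agent.W97.TW
open Pool.Agent.W97.MT (affCount ap)
open Pool.Agent.Y702 (E11)
open Pool.Agent.Y702.M (cc cc_eq newf)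
open Pool.Agent.W263.BSD (pointCount GoodPrime IsLSeries)

/-- the number of solutions of the short Weierstrass equation -/
theorem points_card (l : ℕ) (hl : l.Prime) (h2 : l ≠ 2) (h3 : l ≠ 3) :
    Nat.card {x : ZMod l × ZMod l //
      x.2 ^ 2 = x.1 ^ 3 + ((-13392 : ℤ) : ZMod l) * x.1 + ((-1080432 : ℤ) : ZMod l)} =
    affCount E11 l := by
  have : Fact l.Prime := ⟨hl⟩
  have n2 : (2 : ZMod l) ≠ 0 := by
    intro h
    have : ((2 : ℕ) : ZMod l) = 0 := by exact_mod_cast h
    rw [ZMod.natCast_eq_zero_iff] at this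
    exact h2 ((Nat.prime_dvd_prime_iff_eq hl Nat.prime_two).1 this)
  have n3 : (3 : ZMod l) ≠ 0 := by
    intro h
    have : ((3 : ℕ) : ZMod l) = 0 := by exact_mod_cast h
    rw [ZMod.natCast_eq_zero_iff] at this
    exact h3 ((Nat.prime_dvd_prime_iff_eq hl Nat.prime_three).1 this)
  have n36 : (36 : ZMod l) ≠ 0 := by
    rw [show (36 : ZMod l) = 2 ^ 2 * 3 ^ 2 by norm_num]
    exact mul_ne_zero (pow_ne_zero 2 n2) (pow_ne_zero 2 n3)
  have n216 : (216 : ZMod l) ≠ 0 := by
    rw [show (216 : ZMod l) = 2 ^ 3 * 3 ^ 3 by norm_num]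
    exact mul_ne_zero (pow_ne_zero 3 n2) (pow_ne_zero 3 n3)
  unfold affCount
  symm
  refine Nat.card_congr
    { toFun := fun x => ⟨(36 * x.1.1 - 12, 216 * x.1.2 + 108), ?_⟩
      invFun := fun x => ⟨((x.1.1 + 12) / 36, (x.1.2 - 108) / 216), ?_⟩
      left_inv := ?_
      right_inv := ?_ }
  · have h := x.2
    rw [WeierstrassCurve.Affine.equation_iff] at h
    simp only [E11, WeierstrassCurve.map, map_one, map_zero, map_neg, map_ofNat] at h
    push_cast at h ⊢
    linear_combination 46656 * h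
  · have h := x.2
    rw [WeierstrassCurve.Affine.equation_iff]
    simp only [E11, WeierstrassCurve.map, map_one, map_zero, map_neg, map_ofNat]
    push_cast at h ⊢
    have e1 : x.1.1 = 36 * ((x.1.1 + 12) / 36) - 12 := by field_simp; ring
    have e2 : x.1.2 = 216 * ((x.1.2 - 108) / 216) + 108 := by
      field_simp
      ring
    set u := (x.1.1 + 12) / 36 with hu
    set v := (x.1.2 - 108) / 216 with hv
    rw [e1, e2] at h
    have n46656 : (46656 : ZMod l) ≠ 0 := by
      rw [show (46656 : ZMod l) = 216 * 216 by norm_num]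
      exact mul_ne_zero n216 n216
    apply mul_left_cancel₀ n46656
    linear_combination h
  · intro x
    ext
    · show (36 * x.1.1 - 12 + 12) / 36 = x.1.1
      field_simp
      ring
    · show (216 * x.1.2 + 108 - 108) / 216 = x.1.2
      field_simp
      ring
  · intro x
    ext
    · show 36 * ((x.1.1 + 12) / 36) - 12 = x.1.1
      field_simp
      ring
    · show 216 * ((x.1.2 - 108) / 216) + 108 = x.1.2
      field_simp
      ring

/-- `c(p) = a_p` for the short Weierstrass equation -/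
theorem points (l : ℕ) (hl : l.Prime) (h2 : l ≠ 2) (h3 : l ≠ 3) :
    cc l = (((l : ℤ) - Nat.card {x : ZMod l × ZMod l //
      x.2 ^ 2 = x.1 ^ 3 + ((-13392 : ℤ) : ZMod l) * x.1 + ((-1080432 : ℤ) : ZMod l)} : ℤ) : ℂ) := by
  rw [cc_eq hl, points_card l hl h2 h3]
  rfl

/-- Hasse's bound -/
theorem good (l : ℕ) (hl : l.Prime) : ‖cc l‖ ≤ 2 * Real.sqrt l := by
  obtain ⟨-, -, -, m2, m3, m5, m11, mb⟩ := Pool.Agent.Y702.P.s_min11
  by_cases h2 : l = 2
  · subst h2
    rw [cc_eq hl]
    unfold ap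
    rw [m2]
    norm_num
  by_cases h3 : l = 3
  · subst h3
    rw [cc_eq hl]
    unfold ap
    rw [m3]
    have h : (1 : ℝ) ≤ Real.sqrt 3 := Real.one_le_sqrt.2 (by norm_num)
    norm_num
    linarith
  · rw [points l hl h2 h3, Complex.norm_intCast]
    have : Fact l.Prime := ⟨hl⟩
    have hc : ringChar (ZMod l) ≠ 2 := by
      rw [ZMod.ringChar_zmod_n]; exact h2
    have h := W165.CE.hasse (k := ZMod l) hc ((-13392 : ℤ) : ZMod l) ((-1080432 : ℤ) : ZMod l)
    rw [ZMod.card] at h
    exact_mod_cast h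

theorem bad (l : ℕ) (hl : l.Prime) (h : l ∣ 11) : ‖cc l‖ ≤ 1 := by
  obtain ⟨-, -, -, m2, m3, m5, m11, mb⟩ := Pool.Agent.Y702.P.s_min11
  have h1 : l = 11 := (Nat.prime_dvd_prime_iff_eq hl (by norm_num)).1 h
  subst h1
  rw [cc_eq hl]
  unfold ap
  rw [m11]
  norm_num

theorem isFormOf : IsFormOf (-13392) (-1080432) 11 f11 where
  one := newf.one
  real := newf.real
  mul := newf.mul
  pow := fun p j hp => Pool.Agent.Y702.M.pow p j hp
  good := fun p hp _ => good p hp
  bad := fun p hp h => bad p hp h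
  fricke := by
    refine ⟨1, Or.inl rfl, ?_⟩
    intro τ τ' h
    have e := newf.fricke τ τ' h
    rw [e]
    have e1 : (((Real.sqrt ((11 : ℕ) : ℝ) : ℝ) : ℂ) * (τ : ℂ) / Complex.I) ^ (2 : ℤ) =
        -(((11 : ℕ) : ℂ) * (τ : ℂ) ^ 2) := by
      have hsq : ((Real.sqrt ((11 : ℕ) : ℝ) : ℝ) : ℂ) ^ 2 = ((11 : ℕ) : ℂ) := by
        have h1 : (Real.sqrt ((11 : ℕ) : ℝ)) ^ 2 = ((11 : ℕ) : ℝ) := Real.sq_sqrt (by positivity)
        exact_mod_cast congrArg (fun x : ℝ => (x : ℂ)) h1
      rw [zpow_ofNat, div_pow, mul_pow, hsq, Complex.I_sq]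
      ring
    rw [e1]
    ring
  points := by
    intro p hp
    have h2 : p ≠ 2 := by
      rintro rfl
      exact hp.2 (by norm_num)
    have h3 : p ≠ 3 := by
      rintro rfl
      exact hp.2 (by norm_num)
    refine ⟨?_, ?_⟩
    · intro h
      have h1 : p = 11 := (Nat.prime_dvd_prime_iff_eq hp.1 (by norm_num)).1 h
      subst h1
      exact hp.2 (by norm_num)
    · have h1 := points p hp.1 h2 h3
      push_cast at h1
      unfold pointCount
      push_cast
      exact h1

end Pool.Agent.Y18.BSD.Eleven
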