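import Mathlib

/-!
Sums of modular symbols over the fibres of `(ℤ/lM)ˣ → (ℤ/M)ˣ` (after helper400) and the sums
`∑ χ(u) f(u/d)` for quadratic characters `χ`.
-/

set_option autoImplicit false

namespace Pool.Agent.Y18.BSD

open Finset

/-- `f (u / N)` -/
noncomputable def FF (f : ℚ → ℂ) (N : ℕ) (u : (ZMod N)ˣ) : ℂ :=
  f ((u : ZMod N).val / N)

lemma per_nat (f : ℚ → ℂ) (hf : ∀ r, f (r + 1) = f r) (r : ℚ) (n : ℕ) : f (r + n) = f r := by
  induction n with
  | zero => simp
  | succ n ih =>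
    rw [← ih, ← hf (r + n)]
    congr 1
    push_cast
    ring

lemma per_val (f : ℚ → ℂ) (hf : ∀ r, f (r + 1) = f r) (M n : ℕ) (hM : 0 < M) :
    f (((n : ZMod M).val : ℚ) / M) = f ((n : ℚ) / M) := by
  have h0 : (M : ℚ) ≠ 0 := by exact_mod_cast hM.ne'
  rw [ZMod.val_natCast]
  have e : (n : ℚ) / M = ((n % M : ℕ) : ℚ) / M + (n / M : ℕ) := by
    have h1 : (n : ℚ) = ((n % M : ℕ) : ℚ) + M * (n / M : ℕ) := by
      exact_mod_cast (Nat.mod_add_div n M).symm
    rw [div_add' _ _ _ h0]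
    congr 1
    rw [h1]
    ring_nf
  rw [e, per_nat f hf]

lemma um_nat {N M : ℕ} (h : M ∣ N) (u : (ZMod N)ˣ) (n : ℕ) (hn : (u : ZMod N) = n) :
    ((ZMod.unitsMap h u : (ZMod M)ˣ) : ZMod M) = (n : ZMod M) := by
  rw [ZMod.unitsMap_val, hn, ZMod.cast_natCast h]

theorem core (f : ℚ → ℂ) (hf : ∀ r, f (r + 1) = f r) (a : ℂ) (l M N : ℕ) (hl : l.Prime)
    (hM : 0 < M) (hco : Nat.Coprime l M) (hN : N = l * M)
    (hecke : ∀ r, a * f r = f (l * r) + ∑ u ∈ range l, f ((r + u) / l))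
    (h : M ∣ N) [Fintype (ZMod N)ˣ] [DecidableEq (ZMod M)ˣ] (c b : (ZMod M)ˣ)
    (hc : (c : ZMod M) = (l : ℕ)) :
    ∑ u ∈ (univ : Finset (ZMod N)ˣ).filter (fun u => ZMod.unitsMap h u = b), FF f N u =
      a * FF f M b - FF f M (c * b) - FF f M (c⁻¹ * b) := by
  classical
  have : NeZero M := ⟨hM.ne'⟩
  have hl0 := hl.pos
  have hN0 : 0 < N := by rw [hN]; positivity
  have : NeZero N := ⟨hN0.ne'⟩
  have hMq : (M : ℚ) ≠ 0 := by exact_mod_cast hM.ne'
  have hlq : (l : ℚ) ≠ 0 := by exact_mod_cast hl0.ne'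
  have hNq : (N : ℚ) = l * M := by rw [hN]; push_cast; rfl
  set t : ℕ := (b : ZMod M).val with ht
  have htM : t < M := ZMod.val_lt _
  have htb : ((t : ℕ) : ZMod M) = (b : ZMod M) := ZMod.natCast_zmod_val _
  have htco : Nat.Coprime t M := ZMod.val_coe_unit_coprime b
  -- the Hecke relation
  have hsum : ∑ j ∈ range l, f (((t + M * j : ℕ) : ℚ) / N) =
      a * f ((t : ℚ) / M) - f (((l * t : ℕ) : ℚ) / M) := by
    have h1 := hecke ((t : ℚ) / M)
    have h2 : (l : ℚ) * ((t : ℚ) / M) = ((l * t : ℕ) : ℚ) / M := by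
      push_cast
      ring
    rw [h2] at h1
    have h3 : ∑ u ∈ range l, f (((t : ℚ) / M + u) / l) =
        ∑ j ∈ range l, f (((t + M * j : ℕ) : ℚ) / N) := by
      refine Finset.sum_congr rfl fun j _ => ?_
      congr 1
      rw [hNq]
      push_cast
      field_simp
    rw [h3] at h1
    rw [h1]
    ring
  -- the index `j0`
  have : Fact l.Prime := ⟨hl⟩
  have hMl : ((M : ℕ) : ZMod l) ≠ 0 := by
    rw [Ne, ZMod.natCast_eq_zero_iff]
    intro hd
    exact (Nat.Prime.coprime_iff_not_dvd hl).1 hco hd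
  set j0 : ℕ := (-(t : ZMod l) * ((M : ℕ) : ZMod l)⁻¹).val with hj0
  have hj0l : j0 < l := ZMod.val_lt _
  have hj0' : ∀ j : ℕ, j < l → (l ∣ t + M * j ↔ j = j0) := by
    intro j hj
    rw [← ZMod.natCast_eq_zero_iff]
    push_cast
    constructor
    · intro h1
      have h2 : (j : ZMod l) = -(t : ZMod l) * ((M : ℕ) : ZMod l)⁻¹ := by
        field_simp
        linear_combination h1
      rw [hj0, ← h2, ZMod.val_natCast, Nat.mod_eq_of_lt hj]
    · intro h1
      have h2 : (j : ZMod l) = -(t : ZMod l) * ((M : ℕ) : ZMod l)⁻¹ := by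
        rw [h1, hj0, ZMod.natCast_zmod_val]
      rw [h2]
      field_simp
      ring
  obtain ⟨w, hw⟩ := (hj0' j0 hj0l).2 rfl
  -- the two other values
  have hcb : FF f M (c⁻¹ * b) = f (((t + M * j0 : ℕ) : ℚ) / N) := by
    have h1 : ((c⁻¹ * b : (ZMod M)ˣ) : ZMod M) = ((w : ℕ) : ZMod M) := by
      have h2 : (c : ZMod M) * ((w : ℕ) : ZMod M) = (b : ZMod M) := by
        rw [hc, ← htb]
        have h3 : ((l * w : ℕ) : ZMod M) = ((t + M * j0 : ℕ) : ZMod M) := by rw [hw]
        push_cast at h3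
        rw [h3]
        simp
      rw [Units.val_mul, ← h2, ← mul_assoc, Units.inv_mul, one_mul]
    unfold FF
    rw [h1, per_val f hf M w hM, hw, hNq]
    congr 1
    push_cast
    field_simp
  have hcb' : FF f M (c * b) = f (((l * t : ℕ) : ℚ) / M) := by
    have h1 : ((c * b : (ZMod M)ˣ) : ZMod M) = ((l * t : ℕ) : ZMod M) := by
      rw [Units.val_mul, hc, ← htb]
      push_cast
      rfl
    unfold FF
    rw [h1, per_val f hf M _ hM]
  have hb : FF f M b = f ((t : ℚ) / M) := rfl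
  -- the bijection
  have hval : ∀ u : (ZMod N)ˣ, ZMod.unitsMap h u = b →
      (u : ZMod N).val = t + M * ((u : ZMod N).val / M) := by
    intro u hu
    have h1 : (((u : ZMod N).val : ℕ) : ZMod M) = (b : ZMod M) := by
      rw [← um_nat h u _ (ZMod.natCast_zmod_val _).symm, hu]
    have h2 : (u : ZMod N).val % M = t := by
      rw [ht, ← h1, ZMod.val_natCast]
    rw [← h2]
    exact (Nat.mod_add_div _ _).symm
  have hbij : ∑ u ∈ (univ : Finset (ZMod N)ˣ).filter (fun u => ZMod.unitsMap h u = b), FF f N u =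
      ∑ j ∈ (range l).erase j0, f (((t + M * j : ℕ) : ℚ) / N) := by
    refine Finset.sum_bij (fun u _ => (u : ZMod N).val / M) ?_ ?_ ?_ ?_
    · intro u hu
      have hu' := (Finset.mem_filter.1 hu).2
      have h1 := hval u hu'
      have h2 : (u : ZMod N).val < N := ZMod.val_lt _
      have h3 : (u : ZMod N).val / M < l := by
        apply Nat.div_lt_of_lt_mul
        rw [mul_comm, ← hN]
        exact h2
      rw [Finset.mem_erase, Finset.mem_range]
      refine ⟨?_, h3⟩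
      intro he
      have h4 := (hj0' _ h3).2 he
      rw [← h1] at h4
      have h5 : Nat.Coprime (u : ZMod N).val N := ZMod.val_coe_unit_coprime u
      have h6 : l ∣ Nat.gcd (u : ZMod N).val N :=
        Nat.dvd_gcd h4 ⟨M, hN⟩
      rw [h5] at h6
      exact hl.one_lt.ne' (Nat.dvd_one.1 h6)
    · intro u hu v hv he
      have h1 := hval u (Finset.mem_filter.1 hu).2
      have h2 := hval v (Finset.mem_filter.1 hv).2
      have he' : (u : ZMod N).val / M = (v : ZMod N).val / M := he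
      rw [he', ← h2] at h1
      have h3 := ZMod.val_injective N h1
      exact Units.ext h3
    · intro j hj
      rw [Finset.mem_erase, Finset.mem_range] at hj
      have h1 : ¬ l ∣ t + M * j := fun h2 => hj.1 ((hj0' j hj.2).1 h2)
      have h2 : Nat.Coprime (t + M * j) N := by
        rw [hN]
        refine Nat.Coprime.mul_right ((Nat.Prime.coprime_iff_not_dvd hl).2 h1).symm ?_
        simpa using htco
      have h3 : t + M * j < N := by
        rw [hN]
        have : M * (j + 1) ≤ M * l := Nat.mul_le_mul_left M hj.2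
        rw [mul_comm l M]
        have h4 : M * (j + 1) = M * j + M := by ring
        omega
      have h4 : ((ZMod.unitOfCoprime (t + M * j) h2 : (ZMod N)ˣ) : ZMod N).val =
          t + M * j := by
        rw [ZMod.coe_unitOfCoprime, ZMod.val_natCast, Nat.mod_eq_of_lt h3]
      refine ⟨ZMod.unitOfCoprime (t + M * j) h2, ?_, ?_⟩
      · rw [Finset.mem_filter]
        refine ⟨Finset.mem_univ _, ?_⟩
        apply Units.ext
        rw [um_nat h _ (t + M * j) (ZMod.coe_unitOfCoprime _ _), ← htb]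
        push_cast
        simp
      · show ((ZMod.unitOfCoprime (t + M * j) h2 : (ZMod N)ˣ) : ZMod N).val / M = j
        rw [h4, Nat.add_mul_div_left _ _ hM, Nat.div_eq_of_lt htM, zero_add]
    · intro u hu
      have h1 := hval u (Finset.mem_filter.1 hu).2
      unfold FF
      rw [← h1]
  rw [hbij, hcb, hcb', hb, ← hsum, ← Finset.add_sum_erase _ _ (Finset.mem_range.2 hj0l)]
  ring

/-! ### quadratic characters -/

/-- the product of the elements -/
def dd (S : Finset ℕ) : ℕ := ∏ q ∈ S, q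

/-- the quadratic character -/
def jc (T : Finset ℕ) {M : ℕ} (u : (ZMod M)ˣ) : ℤ := jacobiSym ((u : ZMod M).val : ℤ) (dd T)

lemma jac_congr {m n : ℕ} {D : ℕ} (h : m ≡ n [MOD D]) : jacobiSym (m : ℤ) D = jacobiSym (n : ℤ) D := by
  rw [jacobiSym.mod_left, jacobiSym.mod_left (n : ℤ)]
  congr 1
  have h1 : (m : ℤ) ≡ n [ZMOD D] := Int.natCast_modEq_iff.2 h
  exact h1

lemma jc_mul (T : Finset ℕ) {M : ℕ} [NeZero M] (h : dd T ∣ M) (u v : (ZMod M)ˣ) :
    jc T (u * v) = jc T u * jc T v := by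
  unfold jc
  rw [← jacobiSym.mul_left]
  have h1 : (((u * v : (ZMod M)ˣ) : ZMod M).val : ℕ) ≡ (u : ZMod M).val * (v : ZMod M).val [MOD M] := by
    rw [← ZMod.natCast_eq_natCast_iff]
    push_cast
    simp only [ZMod.natCast_val, ZMod.cast_id', id_eq]
  have h2 := jac_congr (h1.of_dvd h)
  rw [h2]
  push_cast
  rfl

lemma jc_sq (T : Finset ℕ) {M : ℕ} [NeZero M] (h : dd T ∣ M) (u : (ZMod M)ˣ) :
    jc T u ^ 2 = 1 := by
  unfold jc
  have h1 : Nat.Coprime (u : ZMod M).val M := ZMod.val_coe_unit_coprime u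
  have h2 : Nat.Coprime (u : ZMod M).val (dd T) := h1.coprime_dvd_right h
  apply jacobiSym.sq_one
  rw [Int.gcd_natCast_natCast]
  exact h2

/-- the sum over the units -/
noncomputable def psi (f : ℚ → ℂ) (T : Finset ℕ) (M : ℕ) [NeZero M] : ℂ :=
  ∑ u : (ZMod M)ˣ, (jc T u : ℂ) * FF f M u

theorem psi_step (f : ℚ → ℂ) (hf : ∀ r, f (r + 1) = f r) (a : ℂ) (l M N : ℕ) [NeZero M] [NeZero N]
    (hl : l.Prime) (hco : Nat.Coprime l M) (hN : N = l * M)
    (hecke : ∀ r, a * f r = f (l * r) + ∑ u ∈ range l, f ((r + u) / l))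
    (T : Finset ℕ) (hT : dd T ∣ M) :
    psi f T N = (a - 2 * (jacobiSym l (dd T) : ℂ)) * psi f T M := by
  classical
  have hM : 0 < M := Nat.pos_of_ne_zero (NeZero.ne M)
  have h : M ∣ N := ⟨l, by rw [hN, mul_comm]⟩
  let c : (ZMod M)ˣ := ZMod.unitOfCoprime l hco
  have hc : (c : ZMod M) = (l : ℕ) := ZMod.coe_unitOfCoprime _ _
  have hjc : jc T c = jacobiSym l (dd T) := by
    unfold jc
    rw [hc]
    apply jac_congr
    rw [ZMod.val_natCast]
    exact (Nat.mod_modEq l M).of_dvd hT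
  -- the fibres
  have h1 : psi f T N = ∑ b : (ZMod M)ˣ, ∑ u ∈ (univ : Finset (ZMod N)ˣ).filter
      (fun u => ZMod.unitsMap h u = b), (jc T u : ℂ) * FF f N u := by
    unfold psi
    exact (Finset.sum_fiberwise _ _ _).symm
  have h2 : ∀ b : (ZMod M)ˣ, ∑ u ∈ (univ : Finset (ZMod N)ˣ).filter
      (fun u => ZMod.unitsMap h u = b), (jc T u : ℂ) * FF f N u =
      (jc T b : ℂ) * (a * FF f M b - FF f M (c * b) - FF f M (c⁻¹ * b)) := by
    intro b
    rw [← core f hf a l M N hl hM hco hN hecke h c b hc, Finset.mul_sum]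
    refine Finset.sum_congr rfl fun u hu => ?_
    have hu' := (Finset.mem_filter.1 hu).2
    congr 2
    unfold jc
    apply jac_congr
    have h3 := um_nat h u _ (ZMod.natCast_zmod_val _).symm
    rw [hu'] at h3
    have h4 : (((b : ZMod M).val : ℕ) : ZMod M) = (((u : ZMod N).val : ℕ) : ZMod M) := by
      rw [ZMod.natCast_zmod_val]; exact h3
    rw [ZMod.natCast_eq_natCast_iff] at h4
    exact (h4.of_dvd hT).symm
  rw [h1, Finset.sum_congr rfl fun b _ => h2 b]
  have h5 : ∑ b : (ZMod M)ˣ, (jc T b : ℂ) * FF f M (c * b) = (jc T c : ℂ) * psi f T M := by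
    unfold psi
    rw [← Equiv.sum_comp (Equiv.mulLeft c) (fun b => (jc T b : ℂ) * FF f M b), Finset.mul_sum]
    refine Finset.sum_congr rfl fun b _ => ?_
    simp only [Equiv.coe_mulLeft]
    rw [jc_mul T hT c b]
    have h6 : ((jc T c : ℤ) : ℂ) ^ 2 = 1 := by exact_mod_cast congrArg (fun x : ℤ => (x : ℂ)) (jc_sq T hT c)
    push_cast
    linear_combination (-(jc T b : ℂ) * FF f M (c * b)) * h6
  have hci : jc T c⁻¹ = jc T c := by
    have h6 := jc_mul T hT c c⁻¹
    rw [mul_inv_cancel] at h6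
    have h7 : jc T (1 : (ZMod M)ˣ) = 1 := by
      have h8 := jc_mul T hT 1 1
      rw [one_mul] at h8
      have h9 := jc_sq T hT 1
      rw [sq, ← h8] at h9
      exact h9
    rw [h7] at h6
    have h8 := jc_sq T hT c
    calc jc T c⁻¹ = (jc T c ^ 2) * jc T c⁻¹ := by rw [h8, one_mul]
      _ = jc T c * (jc T c * jc T c⁻¹) := by ring
      _ = jc T c := by rw [← h6, mul_one]
  have h6 : ∑ b : (ZMod M)ˣ, (jc T b : ℂ) * FF f M (c⁻¹ * b) = (jc T c : ℂ) * psi f T M := by
    unfold psi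
    rw [← Equiv.sum_comp (Equiv.mulLeft c⁻¹) (fun b => (jc T b : ℂ) * FF f M b), Finset.mul_sum]
    refine Finset.sum_congr rfl fun b _ => ?_
    simp only [Equiv.coe_mulLeft]
    rw [jc_mul T hT c⁻¹ b, hci]
    have h6 : ((jc T c : ℤ) : ℂ) ^ 2 = 1 := by exact_mod_cast congrArg (fun x : ℤ => (x : ℂ)) (jc_sq T hT c)
    push_cast
    linear_combination (-(jc T b : ℂ) * FF f M (c⁻¹ * b)) * h6
  have h7 : ∑ b : (ZMod M)ˣ, (jc T b : ℂ) * (a * FF f M b - FF f M (c * b) - FF f M (c⁻¹ * b)) =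
      a * psi f T M - (∑ b : (ZMod M)ˣ, (jc T b : ℂ) * FF f M (c * b)) -
        ∑ b : (ZMod M)ˣ, (jc T b : ℂ) * FF f M (c⁻¹ * b) := by
    unfold psi
    rw [Finset.mul_sum, ← Finset.sum_sub_distrib, ← Finset.sum_sub_distrib]
    refine Finset.sum_congr rfl fun b _ => by ring
  rw [h7, h5, h6, hjc]
  ring

lemma dd_insert {q : ℕ} {S : Finset ℕ} (h : q ∉ S) : dd (insert q S) = q * dd S :=
  Finset.prod_insert h

lemma dd_ne_zero {S : Finset ℕ} (h : ∀ q ∈ S, q.Prime) : dd S ≠ 0 :=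
  Finset.prod_ne_zero_iff.2 fun q hq => (h q hq).ne_zero

lemma dd_coprime {q : ℕ} {S : Finset ℕ} (hq : q.Prime) (hS : ∀ p ∈ S, p.Prime) (h : q ∉ S) :
    Nat.Coprime q (dd S) := by
  unfold dd
  rw [Nat.coprime_prod_right_iff]
  intro p hp
  exact (Nat.coprime_primes hq (hS p hp)).2 (fun e => h (e ▸ hp))

lemma dd_dvd {S T : Finset ℕ} (h : T ⊆ S) : dd T ∣ dd S := Finset.prod_dvd_prod_of_subset _ _ _ h

/-- the sum for the modulus `∏ S` in terms of the sum for the modulus `∏ T` -/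
theorem psi_prod (f : ℚ → ℂ) (hf : ∀ r, f (r + 1) = f r) (a : ℕ → ℂ) (T : Finset ℕ)
    (R : Finset ℕ) : Disjoint R T → (∀ q ∈ R ∪ T, q.Prime) →
    (∀ l ∈ R, ∀ r, a l * f r = f (l * r) + ∑ u ∈ range l, f ((r + u) / l)) →
    ∀ (M M' : ℕ) [NeZero M] [NeZero M'], M = dd (R ∪ T) → M' = dd T →
    psi f T M = (∏ q ∈ R, (a q - 2 * (jacobiSym q (dd T) : ℂ))) * psi f T M' := by
  classical
  induction R using Finset.induction_on with
  | empty =>
    intro _ _ _ M M' _ _ hM hM'
    rw [Finset.empty_union, ← hM'] at hM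
    subst hM
    rw [Finset.prod_empty, one_mul]
  | insert q R hq ih =>
    intro hd hp hh M M' _ _ hM hM'
    have hd' : Disjoint R T := hd.mono_left (Finset.subset_insert q R)
    have hqT : q ∉ T := fun h => Finset.disjoint_left.1 hd (Finset.mem_insert_self q R) h
    have hqRT : q ∉ R ∪ T := by simp [hq, hqT]
    have hp' : ∀ x ∈ R ∪ T, x.Prime := fun x hx => hp x (by
      rw [Finset.insert_union]; exact Finset.mem_insert_of_mem hx)
    have hqp : q.Prime := hp q (by simp)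
    have hne : NeZero (dd (R ∪ T)) := ⟨dd_ne_zero hp'⟩
    rw [Finset.insert_union, dd_insert hqRT] at hM
    have h1 := psi_step f hf (a q) q (dd (R ∪ T)) M hqp (dd_coprime hqp hp' hqRT) hM
      (hh q (Finset.mem_insert_self q R)) T (dd_dvd Finset.subset_union_right)
    rw [h1, ih hd' hp' (fun l hl => hh l (Finset.mem_insert_of_mem hl)) (dd (R ∪ T)) M' rfl hM',
      Finset.prod_insert hq]
    ring

end Pool.Agent.Y18.BSD
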