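import Mathlib
import Pool.Agent.W263.BSD.Defs
import Pool.Agent.Y18.BSD.Fib

/-!
Point counts of quadratic twists, parity, and quadratic reciprocity.
-/

set_option autoImplicit false

namespace Pool.Agent.Y18.BSD

open Finset Pool.Agent.W263.BSD

/-- the number of the points of `y² = g x` -/
lemma count_eq (p : ℕ) [Fact p.Prime] (hp2 : p ≠ 2) (g : ZMod p → ZMod p) :
    (Nat.card {x : ZMod p × ZMod p // x.2 ^ 2 = g x.1} : ℤ) =
      ∑ x : ZMod p, (quadraticChar (ZMod p) (g x) + 1) := by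
  classical
  have h1 : Nat.card {x : ZMod p × ZMod p // x.2 ^ 2 = g x.1} =
      ∑ x : ZMod p, Fintype.card {y : ZMod p // y ^ 2 = g x} := by
    rw [Nat.card_eq_fintype_card, ← Fintype.card_sigma]
    exact Fintype.card_congr
      { toFun := fun x => ⟨x.1.1, x.1.2, x.2⟩
        invFun := fun x => ⟨(x.1, x.2.1), x.2.2⟩
        left_inv := fun x => rfl
        right_inv := fun x => rfl }
  rw [h1]
  push_cast
  refine Finset.sum_congr rfl fun x _ => ?_
  have h2 := quadraticChar_card_sqrts (F := ZMod p) (by rwa [ZMod.ringChar_zmod_n]) (g x)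
  rw [← h2, Set.toFinset_card]
  congr 1

lemma twist_sum (p : ℕ) [Fact p.Prime] (a b D : ZMod p) (hD : D ≠ 0) :
    ∑ x : ZMod p, quadraticChar (ZMod p) (x ^ 3 + a * D ^ 2 * x + b * D ^ 3) =
      quadraticChar (ZMod p) D * ∑ x : ZMod p, quadraticChar (ZMod p) (x ^ 3 + a * x + b) := by
  rw [← Equiv.sum_comp (Equiv.mulLeft₀ D hD), Finset.mul_sum]
  refine Finset.sum_congr rfl fun x _ => ?_
  show quadraticChar (ZMod p) ((D * x) ^ 3 + a * D ^ 2 * (D * x) + b * D ^ 3) = _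
  have e : (D * x) ^ 3 + a * D ^ 2 * (D * x) + b * D ^ 3 = D ^ 2 * D * (x ^ 3 + a * x + b) := by ring
  rw [e, map_mul, map_mul, quadraticChar_sq_one' hD, one_mul]

lemma twist_count (p : ℕ) [Fact p.Prime] (hp2 : p ≠ 2) (a b D : ℤ) (hD : ((D : ℤ) : ZMod p) ≠ 0) :
    (p : ℤ) - pointCount (a * D ^ 2) (b * D ^ 3) p =
      quadraticChar (ZMod p) (D : ZMod p) * ((p : ℤ) - pointCount a b p) := by
  have h1 := count_eq p hp2 (fun x => x ^ 3 + ((a * D ^ 2 : ℤ) : ZMod p) * x + ((b * D ^ 3 : ℤ) : ZMod p))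
  have h2 := count_eq p hp2 (fun x => x ^ 3 + (a : ZMod p) * x + (b : ZMod p))
  have h3 : (pointCount (a * D ^ 2) (b * D ^ 3) p : ℤ) =
      ∑ x : ZMod p, (quadraticChar (ZMod p) (x ^ 3 + ((a * D ^ 2 : ℤ) : ZMod p) * x +
        ((b * D ^ 3 : ℤ) : ZMod p)) + 1) := h1
  have h4 : (pointCount a b p : ℤ) =
      ∑ x : ZMod p, (quadraticChar (ZMod p) (x ^ 3 + (a : ZMod p) * x + (b : ZMod p)) + 1) := h2
  have h5 := twist_sum p (a : ZMod p) (b : ZMod p) (D : ZMod p) hD
  rw [h3, h4, Finset.sum_add_distrib, Finset.sum_add_distrib]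
  push_cast
  rw [h5]
  simp only [sum_const, card_univ, ZMod.card, nsmul_eq_mul, mul_one]
  ring

/-- the parity of the number of points -/
lemma parity (p : ℕ) [Fact p.Prime] (hp2 : p ≠ 2) (a b : ℤ)
    (h : ∀ x : ZMod p, x ^ 3 + (a : ZMod p) * x + (b : ZMod p) ≠ 0) :
    (2 : ℤ) ∣ pointCount a b p := by
  have h2 := count_eq p hp2 (fun x => x ^ 3 + (a : ZMod p) * x + (b : ZMod p))
  have h4 : (pointCount a b p : ℤ) =
      ∑ x : ZMod p, (quadraticChar (ZMod p) (x ^ 3 + (a : ZMod p) * x + (b : ZMod p)) + 1) := h2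
  rw [h4]
  refine Finset.dvd_sum fun x _ => ?_
  rcases quadraticChar_dichotomy (h x) with h5 | h5 <;> rw [h5] <;> norm_num

/-- the discriminant of the twist: `∏_{q ∈ T} (-1)^((q-1)/2) q` -/
def disc (T : Finset ℕ) : ℤ := ∏ q ∈ T, (-1 : ℤ) ^ ((q - 1) / 2) * q

lemma dvd_disc {T : Finset ℕ} (hT : ∀ q ∈ T, q.Prime) {p : ℕ} (hp : p.Prime) :
    (p : ℤ) ∣ disc T ↔ p ∈ T := by
  unfold disc
  rw [(Nat.prime_iff_prime_int.1 hp).dvd_finsetProd_iff]
  constructor
  · rintro ⟨q, hq, h⟩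
    have h1 : (p : ℤ) ∣ q := by
      rwa [IsUnit.dvd_mul_left] at h
      exact (isUnit_neg_one).pow _
    have h2 : p ∣ q := by exact_mod_cast h1
    rw [(Nat.prime_dvd_prime_iff_eq hp (hT q hq)).1 h2]
    exact hq
  · intro h
    exact ⟨p, h, Dvd.intro_left _ rfl⟩

/-- reciprocity -/
lemma recip {T : Finset ℕ} (hT : ∀ q ∈ T, q.Prime ∧ q ≠ 2) (p : ℕ) [Fact p.Prime] (hp2 : p ≠ 2)
    (hpT : p ∉ T) : quadraticChar (ZMod p) ((disc T : ℤ) : ZMod p) = jacobiSym (p : ℤ) (dd T) := by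
  classical
  induction T using Finset.induction_on with
  | empty => simp [disc, dd, jacobiSym.one_right]
  | insert q T hq ih =>
    have hq' := hT q (Finset.mem_insert_self q T)
    have : Fact q.Prime := ⟨hq'.1⟩
    have hpq : q ≠ p := by
      rintro rfl
      exact hpT (Finset.mem_insert_self q T)
    have ih' := ih (fun x hx => hT x (Finset.mem_insert_of_mem hx))
      (fun h => hpT (Finset.mem_insert_of_mem h))
    have hT' : ∀ x ∈ T, x.Prime := fun x hx => (hT x (Finset.mem_insert_of_mem hx)).1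
    have hdd : NeZero (dd T) := ⟨dd_ne_zero hT'⟩
    have e1 : disc (insert q T) = ((-1 : ℤ) ^ ((q - 1) / 2) * q) * disc T := Finset.prod_insert hq
    rw [dd_insert hq, e1, jacobiSym.mul_right, ← ih']
    push_cast
    rw [map_mul]
    congr 1
    have h1 := quadraticChar_odd_prime (F := ZMod q) (by rw [ZMod.ringChar_zmod_n]; exact hq'.2)
      hp2 (by rw [ZMod.ringChar_zmod_n]; exact hpq)
    rw [ZMod.card] at h1
    have hodd : q % 2 = 1 := Nat.odd_iff.1 (hq'.1.odd_of_ne_two hq'.2)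
    have h2 : (q - 1) / 2 = q / 2 := by omega
    have h3 := ZMod.χ₄_eq_neg_one_pow hodd
    rw [h3, ← h2] at h1
    rw [← jacobiSym.legendreSym.to_jacobiSym]
    unfold legendreSym
    push_cast at h1 ⊢
    rw [h1]

end Pool.Agent.Y18.BSD
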