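import Pool.Agent.Y18.BSD.Lf
import Pool.Agent.Y18.BSD.Pts
import Pool.Agent.H385R2.EcD1

/-!
The `L`-series of the quadratic twists of an elliptic curve with newform `f`.
-/

set_option autoImplicit false

open Complex Filter Topology Set UpperHalfPlane MatrixGroups CongruenceSubgroup ZMod

namespace Pool.Agent.Y18.BSD

open Pool.Agent.TH940 (Fr)
open Pool.Agent.W263.BSD (pointCount GoodPrime IsLSeries)

/-- `f` is the newform of `y² = x³ + a x + b` (standard properties) -/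
structure IsFormOf (a b : ℤ) (N : ℕ) (f : CuspForm (Gamma0 N : Subgroup (GL (Fin 2) ℝ)) 2) :
    Prop where
  one : co f 1 = 1
  real : ∀ n, (co f n).im = 0
  mul : ∀ m n : ℕ, Nat.Coprime m n → co f (m * n) = co f m * co f n
  pow : ∀ p j : ℕ, p.Prime → co f (p ^ (j + 2)) = co f p * co f (p ^ (j + 1)) -
      (if p ∣ N then 0 else (p : ℂ) * co f (p ^ j))
  good : ∀ p : ℕ, p.Prime → ¬ p ∣ N → ‖co f p‖ ≤ 2 * Real.sqrt p
  bad : ∀ p : ℕ, p.Prime → p ∣ N → ‖co f p‖ ≤ 1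
  fricke : ∃ w : ℝ, (w = 1 ∨ w = -1) ∧ ∀ τ τ' : ℍ, (τ' : ℂ) * ((N : ℂ) * (τ : ℂ)) = -1 →
    f τ' = -(w : ℂ) * (N : ℂ) * (τ : ℂ) ^ 2 * f τ
  points : ∀ p : ℕ, GoodPrime a b p → ¬ p ∣ N ∧ co f p = (p : ℂ) - (pointCount a b p : ℂ)

/-- `L(E, 1) ≠ 0` -/
def RankZero (a b : ℤ) : Prop := ∃ F : ℂ → ℂ, IsLSeries a b F ∧ F 1 ≠ 0

/-- `q ∤ 2Δ` and `x³ + a x + b` has no root modulo `q` -/
def Adm (a b : ℤ) (q : ℕ) : Prop :=
  GoodPrime a b q ∧ ∀ x : ZMod q, x ^ 3 + (a : ZMod q) * x + (b : ZMod q) ≠ 0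

variable {N : ℕ} [NeZero N] {a b : ℤ} {f : CuspForm (Gamma0 N : Subgroup (GL (Fin 2) ℝ)) 2}

lemma IsFormOf.cf (hf : IsFormOf a b N f) : Cf N (co f) :=
  ⟨W388.coeff_zero f, hf.one, hf.real, hf.mul, hf.pow, hf.good, hf.bad⟩

omit [NeZero N] in
lemma IsFormOf.hrel (hf : IsFormOf a b N f) : HRel f := ⟨hf.one, hf.mul, hf.pow⟩

omit [NeZero N] in
lemma IsFormOf.newf (hf : IsFormOf a b N f) : ∃ w : ℝ, W388.IsNewf N 2 f w ∧ Fr f (w : ℂ) := by
  obtain ⟨w, hw, hfr⟩ := hf.fricke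
  have hN0 : (0 : ℝ) ≤ (N : ℝ) := Nat.cast_nonneg N
  have hsq : ((Real.sqrt N : ℝ) : ℂ) ^ 2 = (N : ℂ) := by
    have h1 : (Real.sqrt N) ^ 2 = (N : ℝ) := Real.sq_sqrt hN0
    exact_mod_cast congrArg (fun x : ℝ => (x : ℂ)) h1
  refine ⟨w, ⟨hf.one, hf.real, hf.mul, ?_, hw, ?_⟩, hfr⟩
  · intro p j hp
    have h1 := hf.pow p j hp
    unfold co at h1
    rw [h1]
    norm_num
  · intro τ τ' h
    rw [hfr τ τ' h]
    congr 1
    have hI : Complex.I ^ 2 = -1 := Complex.I_sq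
    have : (((Real.sqrt N : ℝ) : ℂ) * (τ : ℂ) / Complex.I) ^ (2 : ℤ) = -((N : ℂ) * (τ : ℂ) ^ 2) := by
      rw [zpow_ofNat, div_pow, mul_pow, hsq, hI]
      ring
    rw [this]
    ring

lemma isLSeries_unique {F G : ℂ → ℂ} (hF : IsLSeries a b F) (hG : IsLSeries a b G) : F = G := by
  have h1 : ∀ s : ℂ, (3 : ℝ) / 2 < s.re → F s = G s := fun s hs => (hF.2 s hs).unique (hG.2 s hs)
  have hA : AnalyticOnNhd ℂ F Set.univ := fun s _ => hF.1.analyticAt s
  have hB : AnalyticOnNhd ℂ G Set.univ := fun s _ => hG.1.analyticAt s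
  have hev : F =ᶠ[𝓝 (2 : ℂ)] G := by
    have hopen : IsOpen {s : ℂ | (3 : ℝ) / 2 < s.re} := isOpen_lt continuous_const Complex.continuous_re
    filter_upwards [hopen.mem_nhds (show (2 : ℂ) ∈ {s : ℂ | (3 : ℝ) / 2 < s.re} by
      show (3 : ℝ) / 2 < (2 : ℂ).re
      norm_num)] with s hs
    exact h1 s hs
  exact hA.eq_of_eventuallyEq hB hev

lemma good_twist {T : Finset ℕ} (hT : ∀ q ∈ T, q.Prime) (p : ℕ) :
    GoodPrime (a * disc T ^ 2) (b * disc T ^ 3) p ↔ GoodPrime a b p ∧ p ∉ T := by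
  unfold GoodPrime
  have e : 2 * (-4 * (a * disc T ^ 2) ^ 3 - 27 * (b * disc T ^ 3) ^ 2) =
      disc T ^ 6 * (2 * (-4 * a ^ 3 - 27 * b ^ 2)) := by ring
  rw [e]
  constructor
  · rintro ⟨hp, h⟩
    refine ⟨⟨hp, fun h1 => h (Dvd.dvd.mul_left h1 _)⟩, fun h1 => h ?_⟩
    exact Dvd.dvd.mul_right (dvd_pow ((dvd_disc hT hp).2 h1) (by norm_num)) _
  · rintro ⟨⟨hp, h⟩, h1⟩
    refine ⟨hp, fun h2 => ?_⟩
    rcases (Nat.prime_iff_prime_int.1 hp).dvd_or_dvd h2 with h3 | h3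
    · exact h1 ((dvd_disc hT hp).1 ((Nat.prime_iff_prime_int.1 hp).dvd_of_dvd_pow h3))
    · exact h h3

lemma good_ne_two {q : ℕ} (h : GoodPrime a b q) : q ≠ 2 := by
  rintro rfl
  exact h.2 (Dvd.intro _ rfl)

lemma dd_odd {T : Finset ℕ} (hT : ∀ q ∈ T, q.Prime ∧ q ≠ 2) : Odd (dd T) := by
  unfold dd
  refine Finset.prod_induction _ Odd (fun _ _ => Odd.mul) odd_one ?_
  intro q hq
  exact (hT q hq).1.odd_of_ne_two (hT q hq).2

lemma dd_sqfree {T : Finset ℕ} (hT : ∀ q ∈ T, q.Prime) : Squarefree (dd T) := by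
  classical
  induction T using Finset.induction_on with
  | empty => simp [dd]
  | insert q T hq ih =>
    have h1 : ∀ x ∈ T, x.Prime := fun x hx => hT x (Finset.mem_insert_of_mem hx)
    have hqp := hT q (Finset.mem_insert_self q T)
    rw [dd_insert hq, Nat.squarefree_mul_iff]
    exact ⟨dd_coprime hqp h1 hq, hqp.squarefree, ih h1⟩

/-- the `L`-series of the twist and the modular symbols -/
theorem twist_lseries (hΔ : 4 * a ^ 3 + 27 * b ^ 2 ≠ 0) (hf : IsFormOf a b N f) {T : Finset ℕ}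
    (hT : ∀ q ∈ T, GoodPrime a b q) [NeZero (dd T)] :
    ∃ G : ℂ → ℂ, IsLSeries (a * disc T ^ 2) (b * disc T ^ 3) G ∧
      ∃ κ : ℂ, κ ≠ 0 ∧ κ * G 1 = psi (bv f) T (dd T) := by
  classical
  obtain ⟨w, hnf, hfr⟩ := hf.newf
  have hc := hf.cf
  have hTp : ∀ q ∈ T, q.Prime := fun q hq => (hT q hq).1
  have hTp2 : ∀ q ∈ T, q.Prime ∧ q ≠ 2 := fun q hq => ⟨(hT q hq).1, good_ne_two (hT q hq)⟩
  obtain ⟨χ, hχ, hχj⟩ := H385.jac_char (dd T) (dd_odd hTp2) (dd_sqfree hTp)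
  have hco : Nat.Coprime (dd T) N := by
    unfold dd
    rw [Nat.coprime_prod_left_iff]
    intro q hq
    exact (Nat.Prime.coprime_iff_not_dvd (hTp q hq)).2 (hf.points q (hT q hq)).1
  obtain ⟨L, hL1, hL2, hL3⟩ := exists_L hnf hfr hc (dd T) χ hχ hco
  set D0 : ℤ := 2 * (-4 * a ^ 3 - 27 * b ^ 2) with hD0
  have hD0' : D0 ≠ 0 := by
    rw [hD0]
    intro h
    apply hΔ
    omega
  set B : Finset ℕ := D0.natAbs.primeFactors with hB
  have hmemB : ∀ p : ℕ, p ∈ B ↔ p.Prime ∧ (p : ℤ) ∣ D0 := by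
    intro p
    rw [hB, Nat.mem_primeFactors_of_ne_zero (by simpa using hD0')]
    rw [← Int.natCast_dvd]
  have hgood : ∀ p : ℕ, GoodPrime a b p ↔ p.Prime ∧ p ∉ B := by
    intro p
    unfold GoodPrime
    rw [hmemB]
    tauto
  have hχval : ∀ p : ℕ, χ (p : ZMod (dd T)) = 1 ∨ χ (p : ZMod (dd T)) = -1 ∨
      χ (p : ZMod (dd T)) = 0 := by
    intro p
    rw [hχj p]
    rcases jacobiSym.trichotomy (p : ℤ) (dd T) with h | h | h <;> rw [h] <;> simp
  have hdiff : ∀ p ∈ B, Differentiable ℂ (fun s : ℂ => lf N (co f) χ s p) := by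
    intro p hp
    have hp0 : (p : ℂ) ≠ 0 := by exact_mod_cast ((hmemB p).1 hp).1.ne_zero
    unfold lf
    have h1 : Differentiable ℂ (fun s : ℂ => (p : ℂ) ^ (-s)) := fun s =>
      DifferentiableAt.const_cpow (by fun_prop) (Or.inl hp0)
    have h2 : Differentiable ℂ (fun s : ℂ => (p : ℂ) ^ (1 - 2 * s)) := fun s =>
      DifferentiableAt.const_cpow (by fun_prop) (Or.inl hp0)
    split_ifs
    · fun_prop
    · fun_prop
  refine ⟨fun s => L s * ∏ p ∈ B, lf N (co f) χ s p, ⟨?_, ?_⟩, ?_⟩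
  · exact hL1.mul (Differentiable.fun_finsetProd hdiff)
  · intro s hs
    have h1 := hc.euler χ hs
    rw [← hL2 s hs] at h1
    have h2 : HasProd (fun p : ℕ => if p ∈ B then lf N (co f) χ s p else 1)
        (∏ p ∈ B, lf N (co f) χ s p) := by
      have h3 : HasProd (fun p : ℕ => if p ∈ B then lf N (co f) χ s p else 1)
          (∏ p ∈ B, if p ∈ B then lf N (co f) χ s p else 1) :=
        hasProd_prod_of_ne_finset_one (fun p hp => if_neg hp)
      rwa [Finset.prod_congr rfl (fun p hp => if_pos hp)] at h3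
    have h3 := h1.mul h2
    refine (congrArg (fun g => HasProd g (L s * ∏ p ∈ B, lf N (co f) χ s p))
      (funext fun p => ?_)).mp h3
    by_cases hp : p.Prime
    · rw [if_pos hp]
      by_cases hpB : p ∈ B
      · have h4 : ¬ GoodPrime (a * disc T ^ 2) (b * disc T ^ 3) p := by
          rw [good_twist hTp, hgood]
          tauto
        rw [if_pos hpB, if_neg h4, inv_mul_cancel₀ (hc.lf_ne χ hs hp)]
      · rw [if_neg hpB, mul_one]
        have hpg : GoodPrime a b p := (hgood p).2 ⟨hp, hpB⟩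
        obtain ⟨hpN, hcp⟩ := hf.points p hpg
        have : Fact p.Prime := ⟨hp⟩
        by_cases hpT : p ∈ T
        · have h4 : ¬ GoodPrime (a * disc T ^ 2) (b * disc T ^ 3) p := by
            rw [good_twist hTp]
            tauto
          rw [if_neg h4]
          have h5 : χ (p : ZMod (dd T)) = 0 := by
            rw [hχj p]
            have h6 : jacobiSym (p : ℤ) (dd T) = 0 := by
              rw [jacobiSym.eq_zero_iff_not_coprime, Int.gcd_natCast_natCast]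
              intro h7
              have h8 : p ∣ dd T := Finset.dvd_prod_of_mem _ hpT
              exact hp.one_lt.ne' (Nat.Coprime.eq_one_of_dvd h7 h8)
            rw [h6]
            simp
          unfold lf
          rw [h5]
          simp
        · have h4 : GoodPrime (a * disc T ^ 2) (b * disc T ^ 3) p := (good_twist hTp p).2 ⟨hpg, hpT⟩
          rw [if_pos h4]
          congr 1
          unfold lf
          have hp2 : p ≠ 2 := good_ne_two hpg
          have h5 : χ (p : ZMod (dd T)) = (quadraticChar (ZMod p) ((disc T : ℤ) : ZMod p) : ℂ) := by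
            rw [hχj p, recip hTp2 p hp2 hpT]
          have hd0 : ((disc T : ℤ) : ZMod p) ≠ 0 := by
            rw [Ne, ZMod.intCast_zmod_eq_zero_iff_dvd]
            exact fun h6 => hpT ((dvd_disc hTp hp).1 h6)
          have h6 := twist_count p hp2 a b (disc T) hd0
          have h7 : ((p : ℂ) - (pointCount (a * disc T ^ 2) (b * disc T ^ 3) p : ℂ)) =
              (quadraticChar (ZMod p) ((disc T : ℤ) : ZMod p) : ℂ) *
                ((p : ℂ) - (pointCount a b p : ℂ)) := by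
            exact_mod_cast congrArg (fun x : ℤ => (x : ℂ)) h6
          have h8 : (quadraticChar (ZMod p) ((disc T : ℤ) : ZMod p) : ℂ) ^ 2 = 1 := by
            exact_mod_cast congrArg (fun x : ℤ => (x : ℂ)) (quadraticChar_sq_one hd0)
          rw [h5, h7, hcp, if_neg hpN, h8, one_mul]
    · have h4 : ¬ GoodPrime (a * disc T ^ 2) (b * disc T ^ 3) p := fun h => hp h.1
      have h5 : p ∉ B := fun h => hp ((hmemB p).1 h).1
      rw [if_neg hp, if_neg h4, if_neg h5, mul_one]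
  · set P : ℂ := ∏ p ∈ B, lf N (co f) χ 1 p with hP
    have hP0 : P ≠ 0 := Finset.prod_ne_zero_iff.2 fun p hp =>
      hc.lf_ne_zero χ ((hmemB p).1 hp).1 (hχval p)
    have hχi : χ⁻¹.IsPrimitive := Pool.Agent.W440.TW.inv_primitive χ hχ
    refine ⟨gaussSum χ⁻¹ (stdAddChar (N := dd T)) * P⁻¹,
      mul_ne_zero (Pool.Agent.W440.TW.gauss_ne_zero χ⁻¹ hχi) (inv_ne_zero hP0), ?_⟩
    have h1 : gaussSum χ⁻¹ (stdAddChar (N := dd T)) * P⁻¹ * (L 1 * P) =
        gaussSum χ⁻¹ (stdAddChar (N := dd T)) * L 1 := by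
      field_simp
    show gaussSum χ⁻¹ (stdAddChar (N := dd T)) * P⁻¹ * (L 1 * P) = _
    rw [h1, hL3]
    unfold psi
    refine Finset.sum_congr rfl fun u _ => ?_
    have h2 : χ⁻¹ (u : ZMod (dd T)) = (jc T u : ℂ) := by
      rw [MulChar.inv_apply_eq_inv']
      have h3 : χ (u : ZMod (dd T)) = (jc T u : ℂ) := by
        have := hχj (u : ZMod (dd T)).val
        rw [ZMod.natCast_zmod_val] at this
        exact this
      rw [h3]
      have h4 : (jc T u : ℂ) ^ 2 = 1 := by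
        exact_mod_cast congrArg (fun x : ℤ => (x : ℂ)) (jc_sq T dvd_rfl u)
      exact inv_eq_of_mul_eq_one_left (by rw [← sq, h4])
    rw [h2]
    rfl

end Pool.Agent.Y18.BSD
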