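import Pool.Agent.Y18.BSD.Per

/-!
The boundary values of the primitive at the rational numbers with denominator prime to `N`
(the modular symbols `{i∞, r}`), and the Hecke relation.
-/

set_option autoImplicit false

open Complex Filter Topology Set UpperHalfPlane MatrixGroups CongruenceSubgroup

namespace Pool.Agent.Y18.BSD

open Pool.Agent.TH940 (prim prim_deriv Fr prim_fricke Pers prim_near prim_line exp_norm coeff_div_bd)
open Pool.Agent.W108.TW (summable_term)

variable {N : ℕ} [NeZero N]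

/-- the Fourier coefficients -/
noncomputable def co (f : CuspForm (Gamma0 N : Subgroup (GL (Fin 2) ℝ)) 2) (n : ℕ) : ℂ :=
  (qExpansion 1 f).coeff n

lemma den_iff (r : ℚ) (M : ℕ) : r.den.Coprime M ↔ ∃ k : ℕ, k.Coprime M ∧ ∃ m : ℤ, (k : ℚ) * r = m := by
  constructor
  · intro h
    exact ⟨r.den, h, r.num, Rat.den_mul_eq_num r⟩
  · rintro ⟨k, hk, m, hm⟩
    refine Nat.Coprime.coprime_dvd_left ?_ hk
    have h1 : (r.num : ℤ) * k = m * r.den := by
      have h2 : (r.num : ℚ) = r.den * r := (Rat.den_mul_eq_num r).symm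
      have h3 : ((r.num * k : ℤ) : ℚ) = ((m * r.den : ℤ) : ℚ) := by
        push_cast
        rw [h2, ← hm]
        ring
      exact_mod_cast h3
    have h4 : (r.den : ℤ) ∣ r.num * k := ⟨m, by rw [h1]; ring⟩
    have h5 : IsCoprime (r.den : ℤ) r.num := by
      have := r.reduced
      rw [Int.isCoprime_iff_gcd_eq_one, Int.gcd_comm]
      exact this
    have h6 := h5.dvd_of_dvd_mul_left h4
    exact_mod_cast h6

lemma den_mul_iff (r : ℚ) {M p : ℕ} (hp : p.Coprime M) :
    ((p : ℚ) * r).den.Coprime M ↔ r.den.Coprime M := by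
  rw [den_iff, den_iff]
  constructor
  · rintro ⟨k, hk, m, hm⟩
    exact ⟨k * p, Nat.Coprime.mul_left hk hp, m, by push_cast; rw [← hm]; ring⟩
  · rintro ⟨k, hk, m, hm⟩
    exact ⟨k, hk, p * m, by push_cast; rw [← hm]; ring⟩

lemma den_div_iff (r : ℚ) (u : ℕ) {M p : ℕ} (hp : p.Coprime M) (hp0 : p ≠ 0) :
    ((r + u) / (p : ℚ)).den.Coprime M ↔ r.den.Coprime M := by
  have hpq : (p : ℚ) ≠ 0 := by exact_mod_cast hp0
  rw [den_iff, den_iff]
  constructor
  · rintro ⟨k, hk, m, hm⟩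
    refine ⟨k, hk, p * m - k * u, ?_⟩
    push_cast
    rw [← hm]
    field_simp
    ring
  · rintro ⟨k, hk, m, hm⟩
    refine ⟨k * p, Nat.Coprime.mul_left hk hp, m + k * u, ?_⟩
    push_cast
    rw [← hm]
    field_simp

/-- the limit of the primitive at a rational number -/
lemma bv_lim (f : CuspForm (Gamma0 N : Subgroup (GL (Fin 2) ℝ)) 2) {ε c0 : ℂ}
    (hc0 : ∀ z : ℂ, 0 < z.im → prim f (-1 / (N * z)) = c0 - ε * prim f z) (r : ℚ)
    (hr : r.den.Coprime N) : ∃ ω ∈ PG f,
      Tendsto (fun y : ℝ => prim f ((r : ℂ) + (y : ℂ) * Complex.I)) (𝓝[>] 0) (𝓝 (c0 + ω)) := by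
  set q := r.den with hq
  have : NeZero q := ⟨r.den_nz⟩
  have hq0 : (0 : ℝ) < q := Nat.cast_pos.2 (Nat.pos_of_ne_zero (NeZero.ne q))
  have hN0 : (0 : ℝ) < N := Nat.cast_pos.2 (Nat.pos_of_ne_zero (NeZero.ne N))
  obtain ⟨v, d, hvd⟩ : ∃ v d : ℤ, q * d - N * r.num * v = 1 := by
    have h1 : IsCoprime (q : ℤ) (N : ℤ) := Nat.isCoprime_iff_coprime.2 hr
    have h2 : IsCoprime (q : ℤ) r.num := by
      have := r.reduced
      rw [Int.isCoprime_iff_gcd_eq_one, Int.gcd_comm]
      exact this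
    obtain ⟨a, b, hab⟩ := h1.mul_right h2
    exact ⟨-b, a, by linarith⟩
  obtain ⟨ω, hω, h⟩ := prim_near f ε hc0 (pers_PG f) r.num v d hvd
  refine ⟨ω, hω, ?_⟩
  have hT : Tendsto (fun y : ℝ => (N * (q : ℝ) ^ 2)⁻¹ * y⁻¹) (𝓝[>] 0) atTop :=
    (tendsto_inv_nhdsGT_zero).const_mul_atTop (by positivity)
  have h1 := (prim_line f ((v : ℝ) / q)).comp hT
  have h2 : Tendsto (fun y : ℝ => c0 + ω - ε * prim f ((((v : ℝ) / q : ℝ) : ℂ) +
      (((N * (q : ℝ) ^ 2)⁻¹ * y⁻¹ : ℝ) : ℂ) * Complex.I)) (𝓝[>] 0) (𝓝 (c0 + ω - ε * 0)) :=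
    (h1.const_mul _).const_sub _
  rw [mul_zero, sub_zero] at h2
  refine h2.congr' ?_
  filter_upwards [self_mem_nhdsWithin] with y (hy : 0 < y)
  have h3 := h ((N * (q : ℝ) ^ 2)⁻¹ * y⁻¹) (by positivity)
  have e1 : (1 / (N * (q : ℝ) ^ 2 * ((N * (q : ℝ) ^ 2)⁻¹ * y⁻¹))) = y := by
    field_simp
  rw [e1] at h3
  have e2 : ((r.num : ℂ) / (q : ℂ)) = (r : ℂ) := by
    rw [hq]
    exact_mod_cast congrArg (fun x : ℚ => (x : ℂ)) (Rat.num_div_den r)
  rw [e2] at h3
  rw [h3]
  push_cast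
  rfl

/-- the boundary value -/
noncomputable def bv (f : CuspForm (Gamma0 N : Subgroup (GL (Fin 2) ℝ)) 2) (r : ℚ) : ℂ :=
  if r.den.Coprime N then
    limUnder (𝓝[>] (0 : ℝ)) (fun y : ℝ => prim f ((r : ℂ) + (y : ℂ) * Complex.I)) else 0

lemma bv_tendsto (f : CuspForm (Gamma0 N : Subgroup (GL (Fin 2) ℝ)) 2) {ε : ℂ} (hf : Fr f ε)
    (r : ℚ) (hr : r.den.Coprime N) :
    Tendsto (fun y : ℝ => prim f ((r : ℂ) + (y : ℂ) * Complex.I)) (𝓝[>] 0) (𝓝 (bv f r)) := by
  obtain ⟨c0, hc0⟩ := prim_fricke f ε hf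
  obtain ⟨ω, -, h⟩ := bv_lim f hc0 r hr
  unfold bv
  rw [if_pos hr]
  exact tendsto_nhds_limUnder ⟨_, h⟩

lemma bv_diff (f : CuspForm (Gamma0 N : Subgroup (GL (Fin 2) ℝ)) 2) {ε : ℂ} (hf : Fr f ε) :
    ∃ c0 : ℂ, ∀ r : ℚ, r.den.Coprime N → bv f r - c0 ∈ PG f := by
  obtain ⟨c0, hc0⟩ := prim_fricke f ε hf
  refine ⟨c0, fun r hr => ?_⟩
  obtain ⟨ω, hω, h⟩ := bv_lim f hc0 r hr
  have h1 := tendsto_nhds_unique (bv_tendsto f hf r hr) h
  rw [h1]
  simpa using hω

/-! ### the Hecke relation -/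

lemma prim_summable (f : CuspForm (Gamma0 N : Subgroup (GL (Fin 2) ℝ)) 2) (z : ℂ) (hz : 0 < z.im) :
    Summable (fun n : ℕ => co f n / n * Complex.exp (2 * Real.pi * Complex.I * n * z)) := by
  obtain ⟨C, hC0, hC⟩ := coeff_div_bd f
  have h0 : (qExpansion 1 f).coeff 0 / ((0 : ℕ) : ℂ) *
      Complex.exp (2 * Real.pi * Complex.I * (0 : ℕ) * (z.re : ℂ)) = 0 := by
    rw [W388.coeff_zero f]; simp
  have h1 := summable_term (b := fun n : ℕ => (qExpansion 1 f).coeff n / n *
    Complex.exp (2 * Real.pi * Complex.I * n * (z.re : ℂ))) (m := 1) (C := C) h0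
    (fun n hn => hC n hn _ (by
      rw [exp_norm, Complex.ofReal_im]; simp)) (c := 2 * Real.pi) (by positivity) hz
  refine h1.congr (fun n => ?_)
  unfold co
  rw [mul_assoc]
  congr 1
  rw [Complex.ofReal_exp, ← Complex.exp_add]
  congr 1
  push_cast
  have h2 : z = (z.re : ℂ) + (z.im : ℂ) * Complex.I := (Complex.re_add_im z).symm
  conv_rhs => rw [h2]
  linear_combination (-(2 * Real.pi * n * (z.im : ℂ) : ℂ)) * Complex.I_sq

lemma prim_hasSum (f : CuspForm (Gamma0 N : Subgroup (GL (Fin 2) ℝ)) 2) (z : ℂ) (hz : 0 < z.im) :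
    HasSum (fun n : ℕ => co f n / n * Complex.exp (2 * Real.pi * Complex.I * n * z)) (prim f z) :=
  (prim_summable f z hz).hasSum

lemma hs_congr {f g : ℕ → ℂ} {a : ℂ} (h : HasSum f a) (hfg : ∀ n, f n = g n) : HasSum g a := by
  have : f = g := funext hfg
  rwa [← this]

/-- the Hecke relations, in the form needed here -/
structure HRel (f : CuspForm (Gamma0 N : Subgroup (GL (Fin 2) ℝ)) 2) : Prop where
  one : co f 1 = 1
  mul : ∀ m n : ℕ, Nat.Coprime m n → co f (m * n) = co f m * co f n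
  pow : ∀ p j : ℕ, p.Prime → co f (p ^ (j + 2)) = co f p * co f (p ^ (j + 1)) -
      (if p ∣ N then 0 else (p : ℂ) * co f (p ^ j))

lemma HRel.coeff {f : CuspForm (Gamma0 N : Subgroup (GL (Fin 2) ℝ)) 2} (hf : HRel f) {p : ℕ}
    (hp : p.Prime) (hpN : ¬ p ∣ N) (m : ℕ) (hm : m ≠ 0) :
    co f (p * m) + (if p ∣ m then (p : ℂ) * co f (m / p) else 0) = co f p * co f m := by
  obtain ⟨k, m', hm', rfl⟩ := Nat.exists_eq_pow_mul_and_not_dvd hm p hp.ne_one
  have hco : Nat.Coprime p m' := (Nat.Prime.coprime_iff_not_dvd hp).2 hm'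
  rcases k with _ | k
  · rw [pow_zero, one_mul, if_neg hm', add_zero, hf.mul p m' hco]
  · have h1 : p ∣ p ^ (k + 1) * m' := Dvd.dvd.mul_right (dvd_pow_self p (Nat.succ_ne_zero k)) m'
    have h2 : p ^ (k + 1) * m' / p = p ^ k * m' := by
      rw [pow_succ, mul_right_comm, Nat.mul_div_cancel _ hp.pos]
    rw [if_pos h1, h2]
    have h3 : p * (p ^ (k + 1) * m') = p ^ (k + 2) * m' := by ring
    rw [h3, hf.mul _ _ (Nat.Coprime.pow_left _ hco), hf.mul _ _ (Nat.Coprime.pow_left _ hco),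
      hf.mul _ _ (Nat.Coprime.pow_left _ hco), hf.pow p k hp, if_neg hpN]
    ring

lemma sum_exp (p : ℕ) (hp : 0 < p) (n : ℕ) :
    ∑ j ∈ Finset.range p, Complex.exp (2 * Real.pi * Complex.I * n * (j / p)) =
      if p ∣ n then (p : ℂ) else 0 := by
  have hpc : (p : ℂ) ≠ 0 := by exact_mod_cast hp.ne'
  set ζ : ℂ := Complex.exp (2 * Real.pi * Complex.I * n / p) with hζ
  have e1 : ∀ j : ℕ, Complex.exp (2 * Real.pi * Complex.I * n * (j / p)) = ζ ^ j := by
    intro j
    rw [hζ, ← Complex.exp_nat_mul]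
    congr 1
    ring
  simp only [e1]
  split_ifs with h
  · obtain ⟨k, rfl⟩ := h
    have : ζ = 1 := by
      rw [hζ]
      have : 2 * (Real.pi : ℂ) * Complex.I * ((p * k : ℕ) : ℂ) / p = k * (2 * Real.pi * Complex.I) := by
        push_cast
        field_simp
      rw [this]
      exact Complex.exp_nat_mul_two_pi_mul_I k
    rw [this]
    simp
  · have hζ1 : ζ ≠ 1 := by
      intro h1
      rw [hζ, Complex.exp_eq_one_iff] at h1
      obtain ⟨k, hk⟩ := h1
      apply h
      have h2 : (2 * Real.pi * Complex.I : ℂ) ≠ 0 := Complex.two_pi_I_ne_zero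
      have h3 : (2 * Real.pi * Complex.I : ℂ) * ((n : ℂ) / p) = (2 * Real.pi * Complex.I) * k := by
        rw [mul_comm _ (k : ℂ), ← hk]
        ring
      have h4 := mul_left_cancel₀ h2 h3
      rw [div_eq_iff hpc] at h4
      have h5 : (n : ℤ) = k * p := by exact_mod_cast h4
      have h6 : (p : ℤ) ∣ n := ⟨k, by rw [h5]; ring⟩
      exact_mod_cast h6
    have hζp : ζ ^ p = 1 := by
      rw [hζ, ← Complex.exp_nat_mul]
      have : (p : ℂ) * (2 * Real.pi * Complex.I * n / p) = n * (2 * Real.pi * Complex.I) := by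
        field_simp
      rw [this]
      exact Complex.exp_nat_mul_two_pi_mul_I n
    have h1 := geom_sum_eq hζ1 p
    rw [h1, hζp, sub_self, zero_div]

lemma prim_hecke {f : CuspForm (Gamma0 N : Subgroup (GL (Fin 2) ℝ)) 2} (hf : HRel f) {p : ℕ}
    (hp : p.Prime) (hpN : ¬ p ∣ N) (z : ℂ) (hz : 0 < z.im) :
    co f p * prim f z = prim f (p * z) + ∑ j ∈ Finset.range p, prim f ((z + j) / p) := by
  have hp0 : 0 < p := hp.pos
  have hpr : (0 : ℝ) < p := by exact_mod_cast hp0
  have hpc : (p : ℂ) ≠ 0 := by exact_mod_cast hp0.ne'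
  have hc0 : co f 0 = 0 := W388.coeff_zero f
  have hinj : Function.Injective (fun n : ℕ => p * n) := fun a b h => Nat.eq_of_mul_eq_mul_left hp0 h
  -- the first sum
  have him1 : 0 < ((p : ℂ) * z).im := by
    rw [show ((p : ℂ)) = ((p : ℝ) : ℂ) by push_cast; rfl, Complex.im_ofReal_mul]
    positivity
  have h1 : HasSum (fun m : ℕ => (if p ∣ m then co f (m / p) / ((m / p : ℕ) : ℂ) else 0) *
      Complex.exp (2 * Real.pi * Complex.I * m * z)) (prim f (p * z)) := by
    have h2 := prim_hasSum f (p * z) him1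
    rw [← hinj.hasSum_iff]
    · refine hs_congr h2 fun n => ?_
      simp only [Function.comp_apply]
      rw [if_pos (dvd_mul_right p n), Nat.mul_div_cancel_left n hp0]
      congr 2
      push_cast
      ring
    · intro m hm
      rw [if_neg, zero_mul]
      rintro ⟨k, rfl⟩
      exact hm ⟨k, rfl⟩
  -- the second sum
  have him2 : ∀ j : ℕ, 0 < ((z + j) / (p : ℂ)).im := by
    intro j
    have e : ((z + j) / (p : ℂ)).im = z.im / p := by
      rw [show ((p : ℂ)) = ((p : ℝ) : ℂ) by push_cast; rfl, Complex.div_ofReal_im]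
      simp
    rw [e]
    positivity
  have h3 : HasSum (fun n : ℕ => ∑ j ∈ Finset.range p, co f n / n *
      Complex.exp (2 * Real.pi * Complex.I * n * ((z + j) / p)))
      (∑ j ∈ Finset.range p, prim f ((z + j) / p)) :=
    hasSum_sum fun j _ => prim_hasSum f _ (him2 j)
  have e4 : ∀ n : ℕ, ∑ j ∈ Finset.range p, co f n / n *
      Complex.exp (2 * Real.pi * Complex.I * n * ((z + j) / p)) =
      co f n / n * Complex.exp (2 * Real.pi * Complex.I * n * (z / p)) *
        (if p ∣ n then (p : ℂ) else 0) := by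
    intro n
    rw [← sum_exp p hp0 n, Finset.mul_sum]
    refine Finset.sum_congr rfl fun j _ => ?_
    rw [mul_assoc (co f n / n), ← Complex.exp_add]
    congr 2
    ring
  simp only [e4] at h3
  have h5 : HasSum (fun m : ℕ => co f (p * m) / ((p * m : ℕ) : ℂ) *
      Complex.exp (2 * Real.pi * Complex.I * m * z) * p)
      (∑ j ∈ Finset.range p, prim f ((z + j) / p)) := by
    rw [← hinj.hasSum_iff] at h3
    · refine hs_congr h3 fun m => ?_
      simp only [Function.comp_apply]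
      rw [if_pos (dvd_mul_right p m)]
      congr 3
      push_cast
      field_simp
    · intro m hm
      rw [if_neg, mul_zero]
      rintro ⟨k, rfl⟩
      exact hm ⟨k, rfl⟩
  have h6 := (prim_hasSum f z hz).mul_left (co f p)
  refine h6.unique (hs_congr (h1.add h5) fun m => ?_)
  rcases Nat.eq_zero_or_pos m with rfl | hm
  · simp [hc0]
  · have h7 := hf.coeff hp hpN m hm.ne'
    have hmc : (m : ℂ) ≠ 0 := by exact_mod_cast hm.ne'
    have e5 : (if p ∣ m then co f (m / p) / ((m / p : ℕ) : ℂ) else 0) =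
        (if p ∣ m then (p : ℂ) * co f (m / p) else 0) / m := by
      split_ifs with h
      · obtain ⟨k, rfl⟩ := h
        rw [Nat.mul_div_cancel_left k hp0]
        have hk : (k : ℂ) ≠ 0 := by
          rintro h8
          apply hmc
          push_cast
          rw [h8, mul_zero]
        push_cast
        field_simp
      · rw [zero_div]
    rw [e5]
    have e6 : co f (p * m) / ((p * m : ℕ) : ℂ) * Complex.exp (2 * Real.pi * Complex.I * m * z) * p =
        co f (p * m) / m * Complex.exp (2 * Real.pi * Complex.I * m * z) := by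
      push_cast
      field_simp
    rw [e6, ← add_mul, ← add_div, add_comm, h7]
    ring

/-- the Hecke relation for the boundary values -/
theorem bv_hecke {f : CuspForm (Gamma0 N : Subgroup (GL (Fin 2) ℝ)) 2} (hf : HRel f) {ε : ℂ}
    (hfr : Fr f ε) {p : ℕ} (hp : p.Prime) (hpN : ¬ p ∣ N) (r : ℚ) :
    co f p * bv f r = bv f (p * r) + ∑ u ∈ Finset.range p, bv f ((r + u) / p) := by
  have hco : p.Coprime N := (Nat.Prime.coprime_iff_not_dvd hp).2 hpN
  have hpr : (0 : ℝ) < p := by exact_mod_cast hp.pos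
  have hpc : (p : ℂ) ≠ 0 := by exact_mod_cast hp.ne_zero
  by_cases hr : r.den.Coprime N
  · have h1 := bv_tendsto f hfr (p * r) ((den_mul_iff r hco).2 hr)
    have h2 := fun u : ℕ => bv_tendsto f hfr ((r + u) / p) ((den_div_iff r u hco hp.ne_zero).2 hr)
    have h3 := bv_tendsto f hfr r hr
    have t1 : Tendsto (fun y : ℝ => (p : ℝ) * y) (𝓝[>] 0) (𝓝[>] 0) := by
      refine tendsto_nhdsWithin_iff.2 ⟨?_, ?_⟩
      · have : Tendsto (fun y : ℝ => (p : ℝ) * y) (𝓝 0) (𝓝 ((p : ℝ) * 0)) :=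
          tendsto_id.const_mul _
        rw [mul_zero] at this
        exact this.mono_left nhdsWithin_le_nhds
      · filter_upwards [self_mem_nhdsWithin] with y (hy : 0 < y)
        exact mul_pos hpr hy
    have t2 : Tendsto (fun y : ℝ => y / (p : ℝ)) (𝓝[>] 0) (𝓝[>] 0) := by
      refine tendsto_nhdsWithin_iff.2 ⟨?_, ?_⟩
      · have : Tendsto (fun y : ℝ => y / (p : ℝ)) (𝓝 0) (𝓝 ((0 : ℝ) / p)) :=
          tendsto_id.div_const _
        rw [zero_div] at this
        exact this.mono_left nhdsWithin_le_nhds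
      · filter_upwards [self_mem_nhdsWithin] with y (hy : 0 < y)
        exact div_pos hy hpr
    have h4 := (h1.comp t1).add (tendsto_finsetSum (Finset.range p) fun u _ => (h2 u).comp t2)
    refine tendsto_nhds_unique (h3.const_mul (co f p)) (h4.congr' ?_)
    filter_upwards [self_mem_nhdsWithin] with y (hy : 0 < y)
    have h5 := prim_hecke hf hp hpN ((r : ℂ) + (y : ℂ) * Complex.I) (by simpa using hy)
    rw [h5]
    simp only [Function.comp_apply]
    congr 1
    · congr 1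
      push_cast
      ring
    · refine Finset.sum_congr rfl fun u _ => ?_
      congr 1
      push_cast
      ring
  · have h1 : ¬ ((p : ℚ) * r).den.Coprime N := fun h => hr ((den_mul_iff r hco).1 h)
    have h2 : ∀ u : ℕ, ¬ ((r + u) / (p : ℚ)).den.Coprime N :=
      fun u h => hr ((den_div_iff r u hco hp.ne_zero).1 h)
    have h3 : bv f r = 0 := if_neg hr
    have h4 : bv f (p * r) = 0 := if_neg h1
    have h5 : ∀ u : ℕ, bv f ((r + u) / p) = 0 := fun u => if_neg (h2 u)
    simp [h3, h4, h5]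

lemma prim_period (f : CuspForm (Gamma0 N : Subgroup (GL (Fin 2) ℝ)) 2) (z : ℂ) :
    prim f (z + 1) = prim f z := by
  unfold prim
  refine tsum_congr fun n => ?_
  congr 1
  have : 2 * (Real.pi : ℂ) * Complex.I * n * (z + 1) =
      2 * Real.pi * Complex.I * n * z + n * (2 * Real.pi * Complex.I) := by ring
  rw [this, Complex.exp_add, Complex.exp_nat_mul_two_pi_mul_I, mul_one]

lemma bv_period (f : CuspForm (Gamma0 N : Subgroup (GL (Fin 2) ℝ)) 2) (r : ℚ) :
    bv f (r + 1) = bv f r := by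
  have h1 : (r + 1).den = r.den := by
    have := Rat.add_intCast_den r 1
    simp
  unfold bv
  rw [h1]
  congr 2
  funext y
  rw [← prim_period f ((r : ℂ) + (y : ℂ) * Complex.I)]
  congr 1
  push_cast
  ring

/-- a nonzero multiple of all the boundary values is a period -/
theorem bv_mem {f : CuspForm (Gamma0 N : Subgroup (GL (Fin 2) ℝ)) 2} (hf : HRel f) {ε : ℂ}
    (hfr : Fr f ε) {p : ℕ} (hp : p.Prime) (hpN : ¬ p ∣ N) (a : ℤ) (ha : co f p = a) (r : ℚ) :
    (((p : ℤ) + 1 - a : ℤ) : ℂ) * bv f r ∈ PG f := by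
  by_cases hr : r.den.Coprime N
  · have hco : p.Coprime N := (Nat.Prime.coprime_iff_not_dvd hp).2 hpN
    obtain ⟨c0, hc0⟩ := bv_diff f hfr
    have h1 := hc0 _ ((den_mul_iff r hco).2 hr)
    have h2 : ∀ u ∈ Finset.range p, bv f ((r + u) / p) - c0 ∈ PG f :=
      fun u _ => hc0 _ ((den_div_iff r u hco hp.ne_zero).2 hr)
    have h3 := AddSubgroup.sum_mem _ h2
    have h4 := AddSubgroup.add_mem _ h1 h3
    have h5 := bv_hecke hf hfr hp hpN r
    rw [Finset.sum_sub_distrib, Finset.sum_const, Finset.card_range, nsmul_eq_mul] at h4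
    have e1 : bv f (p * r) - c0 + (∑ u ∈ Finset.range p, bv f ((r + u) / p) - p * c0) =
        a * bv f r - (p + 1) * c0 := by
      rw [← ha, h5]
      ring
    rw [e1] at h4
    have h6 := AddSubgroup.zsmul_mem _ (hc0 r hr) ((p : ℤ) + 1)
    have h7 := AddSubgroup.sub_mem _ h6 h4
    have e2 : ((p : ℤ) + 1) • (bv f r - c0) - (a * bv f r - (p + 1) * c0) =
        (((p : ℤ) + 1 - a : ℤ) : ℂ) * bv f r := by
      rw [zsmul_eq_mul]
      push_cast
      ring
    rwa [e2] at h7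
  · have h3 : bv f r = 0 := if_neg hr
    rw [h3, mul_zero]
    exact AddSubgroup.zero_mem _

end Pool.Agent.Y18.BSD
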