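import Pool.Agent.Y18.BSD.RM

/-!
Correction subgroups: if a function on a group of finite sets agrees, up to odd factors, with integral
combinations of characters, then it does not vanish on some element of every coset of a subgroup of
bounded order.
-/

set_option autoImplicit false

open scoped symmDiff

namespace Pool.Agent.Y18.BSD

/-- iterated differences of an integer valued function -/
def DA (A : Finset ℕ → ℤ) : List (Finset ℕ) → Finset ℕ → ℤ
  | [], T => A T
  | T0 :: L, T => DA A L T - DA A L (T0 ∆ T)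

lemma DA_comb {A : Finset ℕ → ℤ} (hA : A ∈ Comb) (L : List (Finset ℕ)) :
    ∃ C ∈ Comb, ∀ T, DA A L T = 2 ^ L.length * C T := by
  induction L with
  | nil => exact ⟨A, hA, fun T => by simp [DA]⟩
  | cons T0 L ih =>
    obtain ⟨C, hC, h⟩ := ih
    obtain ⟨-, D, hD, h2⟩ := Comb.shift hC T0
    refine ⟨D, hD, fun T => ?_⟩
    rw [DA, h, h, ← mul_sub, h2, List.length_cons, pow_succ]
    ring

/-- iterated differences of a function with values modulo two -/
def DP (p : Finset ℕ → ZMod 2) : List (Finset ℕ) → Finset ℕ → ZMod 2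
  | [], T => p T
  | T0 :: L, T => DP p L T + DP p L (T0 ∆ T)

/-- the span of a list -/
def spanL : List (Finset ℕ) → Finset (Finset ℕ)
  | [] => {∅}
  | T0 :: L => spanL L ∪ (spanL L).image (fun T => T0 ∆ T)

lemma spanL_card (L : List (Finset ℕ)) : (spanL L).card ≤ 2 ^ L.length := by
  induction L with
  | nil => simp [spanL]
  | cons T0 L ih =>
    rw [spanL, List.length_cons, pow_succ]
    refine (Finset.card_union_le _ _).trans ?_
    have := Finset.card_image_le (s := spanL L) (f := fun T => T0 ∆ T)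
    omega

lemma spanL_empty (L : List (Finset ℕ)) : ∅ ∈ spanL L := by
  induction L with
  | nil => simp [spanL]
  | cons T0 L ih => rw [spanL]; exact Finset.mem_union_left _ ih

lemma spanL_closed (L : List (Finset ℕ)) : ∀ S ∈ spanL L, ∀ T ∈ spanL L, S ∆ T ∈ spanL L := by
  induction L with
  | nil =>
    intro S hS T hT
    simp only [spanL, Finset.mem_singleton] at hS hT ⊢
    rw [hS, hT, symmDiff_self]
    rfl
  | cons T0 L ih =>
    intro S hS T hT
    simp only [spanL, Finset.mem_union, Finset.mem_image] at hS hT ⊢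
    rcases hS with hS | ⟨S', hS', rfl⟩ <;> rcases hT with hT | ⟨T', hT', rfl⟩
    · exact Or.inl (ih S hS T hT)
    · exact Or.inr ⟨S ∆ T', ih S hS T' hT', by
        rw [← symmDiff_assoc, ← symmDiff_assoc, symmDiff_comm T0 S]⟩
    · exact Or.inr ⟨S' ∆ T, ih S' hS' T hT, by rw [symmDiff_assoc]⟩
    · refine Or.inl ?_
      have e : T0 ∆ S' ∆ (T0 ∆ T') = S' ∆ T' := by
        rw [symmDiff_comm T0 S', symmDiff_assoc, symmDiff_symmDiff_cancel_left]
      rw [e]
      exact ih S' hS' T' hT'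

lemma spanL_sub {H : Set (Finset ℕ)} (h0 : ∅ ∈ H) (hc : ∀ S ∈ H, ∀ T ∈ H, S ∆ T ∈ H)
    (L : List (Finset ℕ)) (hL : ∀ T ∈ L, T ∈ H) : ∀ T ∈ spanL L, T ∈ H := by
  induction L with
  | nil =>
    intro T hT
    simp only [spanL, Finset.mem_singleton] at hT
    rw [hT]; exact h0
  | cons T0 L ih =>
    intro T hT
    have ih' := ih fun T hT => hL T (List.mem_cons_of_mem _ hT)
    simp only [spanL, Finset.mem_union, Finset.mem_image] at hT
    rcases hT with hT | ⟨T', hT', rfl⟩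
    · exact ih' T hT
    · exact hc _ (hL T0 List.mem_cons_self) _ (ih' T' hT')

lemma DP_exists (p : Finset ℕ → ZMod 2) (L : List (Finset ℕ)) :
    ∀ T, DP p L T ≠ 0 → ∃ K ∈ spanL L, p (T ∆ K) ≠ 0 := by
  induction L with
  | nil =>
    intro T h
    refine ⟨∅, by simp [spanL], ?_⟩
    rw [DP] at h
    have : T ∆ ∅ = T := symmDiff_bot T
    rwa [this]
  | cons T0 L ih =>
    intro T h
    rw [DP] at h
    by_cases h1 : DP p L T = 0
    · rw [h1, zero_add] at h
      obtain ⟨K, hK, h2⟩ := ih _ h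
      refine ⟨T0 ∆ K, ?_, ?_⟩
      · simp only [spanL, Finset.mem_union, Finset.mem_image]
        exact Or.inr ⟨K, hK, rfl⟩
      · have e : T ∆ (T0 ∆ K) = T0 ∆ T ∆ K := by
          rw [← symmDiff_assoc, symmDiff_comm T T0]
        rwa [e]
    · obtain ⟨K, hK, h2⟩ := ih _ h1
      exact ⟨K, by simp only [spanL, Finset.mem_union]; exact Or.inl hK, h2⟩

/-- comparison of the two iterated differences -/
lemma DA_DP {β A : Finset ℕ → ℤ} {S : Finset ℕ} {μ : ℕ} (p : Finset ℕ → ZMod 2)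
    (hp : ∀ T, p T = if (2 : ℤ) ^ (μ + 1) ∣ β T then 0 else 1)
    (hA : ∀ T ⊆ S, ∃ o : ℤ, ¬ (2 : ℤ) ∣ o ∧ A T = o * β T) (L : List (Finset ℕ))
    (hL : ∀ T ∈ L, T ⊆ S) (hdvd : ∀ T ∈ spanL L, ∀ T' ⊆ S, T ∆ T' ⊆ S) :
    ∀ T ⊆ S, (∀ K ∈ spanL L, (2 : ℤ) ^ μ ∣ β (T ∆ K)) →
      ∃ c : ℤ, DA A L T = 2 ^ μ * c ∧ (c : ZMod 2) = DP p L T := by
  induction L with
  | nil =>
    intro T hT hd
    obtain ⟨o, ho, he⟩ := hA T hT
    have h1 := hd ∅ (by simp [spanL])
    have e0 : T ∆ ∅ = T := symmDiff_bot T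
    rw [e0] at h1
    obtain ⟨c, hc⟩ := h1
    refine ⟨o * c, by rw [DA, he, hc]; ring, ?_⟩
    rw [DP, hp]
    have ho1 : (o : ZMod 2) = 1 := by
      have h2 : (o : ZMod 2) ≠ 0 := fun h => ho ((ZMod.intCast_zmod_eq_zero_iff_dvd o 2).1 h)
      revert h2
      generalize (o : ZMod 2) = x
      revert x
      decide
    push_cast
    rw [ho1, one_mul]
    by_cases h3 : (2 : ℤ) ∣ c
    · rw [if_pos (by rw [hc, pow_succ]; exact mul_dvd_mul_left _ h3)]
      exact (ZMod.intCast_zmod_eq_zero_iff_dvd c 2).2 h3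
    · rw [if_neg (by
        rw [hc, pow_succ]
        intro h4
        exact h3 ((mul_dvd_mul_iff_left (by positivity)).1 h4))]
      have h2 : (c : ZMod 2) ≠ 0 := fun h => h3 ((ZMod.intCast_zmod_eq_zero_iff_dvd c 2).1 h)
      revert h2
      generalize (c : ZMod 2) = x
      revert x
      decide
  | cons T0 L ih =>
    intro T hT hd
    have hL' : ∀ T ∈ L, T ⊆ S := fun T hT => hL T (List.mem_cons_of_mem _ hT)
    have hsub : ∀ K ∈ spanL L, K ∈ spanL (T0 :: L) := fun K hK => by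
      simp only [spanL, Finset.mem_union]; exact Or.inl hK
    have hsub2 : ∀ K ∈ spanL L, T0 ∆ K ∈ spanL (T0 :: L) := fun K hK => by
      simp only [spanL, Finset.mem_union, Finset.mem_image]; exact Or.inr ⟨K, hK, rfl⟩
    have hdvd' : ∀ T ∈ spanL L, ∀ T' ⊆ S, T ∆ T' ⊆ S := fun K hK => hdvd K (hsub K hK)
    obtain ⟨c, hc1, hc2⟩ := ih hL' hdvd' T hT (fun K hK => hd K (hsub K hK))
    have hT0 : T0 ∆ T ⊆ S := by
      have h1 := hdvd (T0 ∆ ∅) (hsub2 ∅ (spanL_empty L)) T hT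
      have e0 : T0 ∆ ∅ = T0 := symmDiff_bot T0
      rwa [e0] at h1
    obtain ⟨c', hc1', hc2'⟩ := ih hL' hdvd' (T0 ∆ T) hT0 (fun K hK => by
      have e : T0 ∆ T ∆ K = T ∆ (T0 ∆ K) := by
        rw [← symmDiff_assoc, symmDiff_comm T T0]
      rw [e]
      exact hd _ (hsub2 K hK))
    refine ⟨c - c', by rw [DA, hc1, hc1']; ring, ?_⟩
    rw [DP, ← hc2, ← hc2']
    push_cast
    have : ∀ x y : ZMod 2, x - y = x + y := by decide
    exact this _ _

/-- **Correction subgroups.** -/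
theorem correction (β : Finset ℕ → ℤ) (H : Set (Finset ℕ)) (h0 : ∅ ∈ H)
    (hc : ∀ S ∈ H, ∀ T ∈ H, S ∆ T ∈ H) (V : ℕ) (hV : ¬ (2 : ℤ) ^ (V + 1) ∣ β ∅)
    (hA : ∀ S : Finset ℕ, (∀ q ∈ S, ∃ T ∈ H, q ∈ T) →
      ∃ A ∈ Comb, ∀ T ⊆ S, ∃ o : ℤ, ¬ (2 : ℤ) ∣ o ∧ A T = o * β T) :
    ∃ K : Finset (Finset ℕ), K.card ≤ 2 ^ V ∧ ∅ ∈ K ∧ (∀ S ∈ K, ∀ T ∈ K, S ∆ T ∈ K) ∧
      (∀ T ∈ K, T ∈ H) ∧ ∀ T ∈ H, ∃ k ∈ K, β (T ∆ k) ≠ 0 := by
  classical
  -- the minimal valuation
  have hex : ∃ j : ℕ, ∃ T ∈ H, ¬ (2 : ℤ) ^ (j + 1) ∣ β T := ⟨V, ∅, h0, hV⟩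
  set μ := Nat.find hex with hμ
  obtain ⟨Ts, hTs, hTs2⟩ := Nat.find_spec hex
  have hμV : μ ≤ V := Nat.find_min' hex ⟨∅, h0, hV⟩
  have hmin : ∀ T ∈ H, (2 : ℤ) ^ μ ∣ β T := by
    intro T hT
    rcases Nat.eq_zero_or_pos μ with h | h
    · rw [h, pow_zero]; exact one_dvd _
    · by_contra hcon
      have h1 := Nat.find_min hex (m := μ - 1) (by omega)
      apply h1
      refine ⟨T, hT, ?_⟩
      rwa [Nat.sub_add_cancel h]
  set p : Finset ℕ → ZMod 2 := fun T => if (2 : ℤ) ^ (μ + 1) ∣ β T then 0 else 1 with hp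
  -- differences of order more than `μ` vanish
  have hvan : ∀ L : List (Finset ℕ), (∀ T ∈ L, T ∈ H) → μ < L.length → ∀ T ∈ H, DP p L T = 0 := by
    intro L hL hlen T hT
    have hspan := spanL_sub h0 hc L hL
    set S : Finset ℕ := (insert T (spanL L)).sup id with hS
    have hTS : T ⊆ S := by
      rw [hS]
      exact Finset.le_sup (f := id) (Finset.mem_insert_self _ _)
    have hKS : ∀ K ∈ spanL L, K ⊆ S := by
      intro K hK
      rw [hS]
      exact Finset.le_sup (f := id) (Finset.mem_insert_of_mem hK)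
    have hLs : ∀ K ∈ L, K ∈ spanL L := by
      clear hL hlen hspan hS hTS hKS
      induction L with
      | nil => intro K hK; simp at hK
      | cons T0 L ih =>
        intro K hK
        simp only [spanL, Finset.mem_union, Finset.mem_image]
        rcases List.mem_cons.1 hK with rfl | hK'
        · exact Or.inr ⟨∅, spanL_empty L, symmDiff_bot K⟩
        · exact Or.inl (ih K hK')
    obtain ⟨A, hAC, hA2⟩ := hA S (by
      intro q hq
      rw [hS, Finset.mem_sup] at hq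
      obtain ⟨K, hK, hqK⟩ := hq
      rcases Finset.mem_insert.1 hK with rfl | hK'
      · exact ⟨K, hT, hqK⟩
      · exact ⟨K, hspan K hK', hqK⟩)
    obtain ⟨c, hc1, hc2⟩ := DA_DP p (fun T => rfl) hA2 L (fun K hK => hKS K (hLs K hK))
      (fun K hK T' hT' => by
        intro q hq
        rw [Finset.mem_symmDiff] at hq
        rcases hq with h | h
        · exact hKS K hK h.1
        · exact hT' h.1) T hTS (fun K hK => hmin _ (hc _ hT _ (hspan K hK)))
    obtain ⟨C, -, hC⟩ := DA_comb hAC L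
    rw [← hc2, ZMod.intCast_zmod_eq_zero_iff_dvd]
    have h1 : (2 : ℤ) ^ μ * c = 2 ^ L.length * C T := by rw [← hc1, hC]
    have h2 : (2 : ℤ) ^ (μ + 1) ∣ 2 ^ μ * c := by
      rw [h1]
      exact Dvd.dvd.mul_right (pow_dvd_pow 2 hlen) _
    rw [pow_succ] at h2
    exact (mul_dvd_mul_iff_left (by positivity)).1 h2
  -- a maximal nonvanishing difference
  let Q : ℕ → Prop := fun k => ∃ L : List (Finset ℕ), L.length = k ∧ (∀ T ∈ L, T ∈ H) ∧
    ∃ T ∈ H, DP p L T ≠ 0
  have hQ0 : Q 0 := ⟨[], rfl, by simp, Ts, hTs, by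
    rw [DP, hp]
    simp only
    rw [if_neg hTs2]
    exact one_ne_zero⟩
  have hQμ : ∀ k, Q k → k ≤ μ := by
    rintro k ⟨L, hk, hL, T, hT, h⟩
    by_contra hcon
    exact h (hvan L hL (by omega) T hT)
  obtain ⟨k, hk, hk1⟩ : ∃ k, Q k ∧ ¬ Q (k + 1) := by
    by_contra hcon
    push Not at hcon
    have hall : ∀ k, Q k := fun k => Nat.rec hQ0 (fun n ih => hcon n ih) k
    have := hQμ (μ + 1) (hall (μ + 1))
    omega
  obtain ⟨L, hLk, hL, T1, hT1, hD1⟩ := hk
  have hconst : ∀ T ∈ H, DP p L T = DP p L T1 := by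
    intro T hT
    by_contra hne
    apply hk1
    refine ⟨(T1 ∆ T) :: L, by simp [hLk], ?_, T, hT, ?_⟩
    · intro K hK
      rcases List.mem_cons.1 hK with rfl | hK'
      · exact hc _ hT1 _ hT
      · exact hL K hK'
    · rw [DP]
      have e : T1 ∆ T ∆ T = T1 := symmDiff_symmDiff_cancel_right T T1
      rw [e]
      intro h
      apply hne
      have : ∀ x y : ZMod 2, x + y = 0 → x = y := by decide
      exact this _ _ h
  have hkμ : k ≤ μ := hQμ k ⟨L, hLk, hL, T1, hT1, hD1⟩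
  refine ⟨spanL L, ?_, spanL_empty L, spanL_closed L, spanL_sub h0 hc L hL, ?_⟩
  · refine (spanL_card L).trans (Nat.pow_le_pow_right (by norm_num) ?_)
    omega
  · intro T hT
    obtain ⟨K, hK, h⟩ := DP_exists p L T (by rw [hconst T hT]; exact hD1)
    refine ⟨K, hK, fun h1 => h ?_⟩
    rw [hp]
    simp only
    rw [h1, if_pos (dvd_zero _)]

end Pool.Agent.Y18.BSD
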