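import Mathlib

/-!
The Dirichlet series `∑ χ(n) c(n) n^(-s)`, `Re s > 3/2`, of the coefficients of a newform of weight
two: absolute convergence and Euler product.
-/

set_option autoImplicit false

open Filter Topology

namespace Pool.Agent.Y18.BSD

/-- the coefficients of a newform of weight two -/
structure Cf (N : ℕ) (c : ℕ → ℂ) : Prop where
  zero : c 0 = 0
  one : c 1 = 1
  real : ∀ n, (c n).im = 0
  mul : ∀ m n : ℕ, Nat.Coprime m n → c (m * n) = c m * c n
  pow : ∀ p j : ℕ, p.Prime → c (p ^ (j + 2)) = c p * c (p ^ (j + 1)) -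
      (if p ∣ N then 0 else (p : ℂ) * c (p ^ j))
  good : ∀ p : ℕ, p.Prime → ¬ p ∣ N → ‖c p‖ ≤ 2 * Real.sqrt p
  bad : ∀ p : ℕ, p.Prime → p ∣ N → ‖c p‖ ≤ 1

variable {N : ℕ} {c : ℕ → ℂ}

/-- the roots of `X² - a X + q` for real `a` with `|a| ≤ 2 √q` -/
theorem exists_roots' {a q : ℝ} (hq : 0 < q) (h : |a| ≤ 2 * Real.sqrt q) :
    ∃ α β : ℂ, ‖α‖ = Real.sqrt q ∧ ‖β‖ = Real.sqrt q ∧ α + β = a ∧ α * β = q := by
  have h1 : a ^ 2 ≤ 4 * q := by
    have h2 : |a| ^ 2 ≤ (2 * Real.sqrt q) ^ 2 := pow_le_pow_left₀ (abs_nonneg _) h 2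
    rw [sq_abs, mul_pow, Real.sq_sqrt hq.le] at h2
    linarith
  set s : ℝ := Real.sqrt (4 * q - a ^ 2) with hs
  have hs2 : s ^ 2 = 4 * q - a ^ 2 := Real.sq_sqrt (by linarith)
  set z : ℂ := ⟨a / 2, s / 2⟩ with hz
  have hns : Complex.normSq z = q := by
    rw [Complex.normSq_apply, hz]
    simp only
    nlinarith
  have hnorm : ‖z‖ = Real.sqrt q := by
    rw [← hns, Complex.norm_def]
  refine ⟨z, (starRingEnd ℂ) z, hnorm, by rw [Complex.norm_conj]; exact hnorm, ?_, ?_⟩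
  · rw [Complex.add_conj, hz]
    push_cast
    ring
  · rw [Complex.mul_conj, hns]

theorem Cf.prime_pow (hf : Cf N c) {p : ℕ} (hp : p.Prime) (hN : ¬ p ∣ N) (j : ℕ) :
    ‖c (p ^ j)‖ ≤ ((j : ℝ) + 1) * Real.sqrt p ^ j := by
  have hp0 : (0 : ℝ) < p := by exact_mod_cast hp.pos
  have him : c p = ((c p).re : ℂ) := by
    apply Complex.ext
    · simp
    · simp [hf.real p]
  have hb := hf.good p hp hN
  rw [him, Complex.norm_real, Real.norm_eq_abs] at hb
  obtain ⟨α, β, hα, hβ, hs, hm⟩ := exists_roots' hp0 hb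
  have hcl : ∀ j : ℕ, c (p ^ j) = ∑ i ∈ Finset.range (j + 1), α ^ i * β ^ (j - i) ∧
      c (p ^ (j + 1)) = ∑ i ∈ Finset.range (j + 2), α ^ i * β ^ (j + 1 - i) := by
    intro j
    induction j with
    | zero =>
      constructor
      · simp [hf.one]
      · rw [zero_add, pow_one, him, ← hs, Finset.sum_range_succ, Finset.sum_range_one]
        simp
        ring
    | succ j ih =>
      refine ⟨ih.2, ?_⟩
      have h1 := hf.pow p j hp
      rw [if_neg hN, ih.1, ih.2, him, ← hs] at h1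
      rw [show j + 1 + 1 = j + 2 by ring, h1]
      have hm' : (p : ℂ) = α * β := by rw [hm]; simp
      rw [hm']
      have e1 : ∑ i ∈ Finset.range (j + 2), α ^ i * β ^ (j + 1 - i) =
          α * (∑ i ∈ Finset.range (j + 1), α ^ i * β ^ (j - i)) + β ^ (j + 1) := by
        rw [Finset.sum_range_succ', Finset.mul_sum]
        congr 1
        · refine Finset.sum_congr rfl fun i hi => ?_
          rw [Nat.add_sub_add_right]
          ring
        · simp
      have e2 : ∑ i ∈ Finset.range (j + 3), α ^ i * β ^ (j + 2 - i) =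
          α * (∑ i ∈ Finset.range (j + 2), α ^ i * β ^ (j + 1 - i)) + β ^ (j + 2) := by
        rw [Finset.sum_range_succ' _ (j + 2), Finset.mul_sum]
        congr 1
        · refine Finset.sum_congr rfl fun i hi => ?_
          rw [show j + 2 - (i + 1) = j + 1 - i by omega]
          ring
        · simp
      have e3 : β * (∑ i ∈ Finset.range (j + 2), α ^ i * β ^ (j + 1 - i)) -
          α * β * (∑ i ∈ Finset.range (j + 1), α ^ i * β ^ (j - i)) = β ^ (j + 2) := by
        rw [e1]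
        ring
      rw [show j + 1 + 1 + 1 = j + 3 by ring] at *
      rw [e2]
      linear_combination e3
  rw [(hcl j).1]
  refine (norm_sum_le _ _).trans ?_
  have h2 : ∀ i ∈ Finset.range (j + 1), ‖α ^ i * β ^ (j - i)‖ ≤ Real.sqrt p ^ j := by
    intro i hi
    rw [norm_mul, norm_pow, norm_pow, hα, hβ, ← pow_add]
    refine le_of_eq ?_
    congr 1
    have := Finset.mem_range.1 hi
    omega
  refine (Finset.sum_le_card_nsmul _ _ _ h2).trans (le_of_eq ?_)
  rw [Finset.card_range, nsmul_eq_mul]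
  push_cast
  ring

theorem Cf.prime_pow_bad (hf : Cf N c) {p : ℕ} (hp : p.Prime) (hN : p ∣ N) (j : ℕ) :
    ‖c (p ^ j)‖ ≤ 1 := by
  induction j with
  | zero => simp [hf.one]
  | succ j ih =>
    rcases Nat.eq_zero_or_pos j with rfl | hj
    · rw [zero_add, pow_one]; exact hf.bad p hp hN
    · obtain ⟨i, rfl⟩ : ∃ i, j = i + 1 := ⟨j - 1, by omega⟩
      have h1 := hf.pow p i hp
      rw [if_pos hN, sub_zero] at h1
      rw [show i + 1 + 1 = i + 2 by ring, h1, norm_mul]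
      calc ‖c p‖ * ‖c (p ^ (i + 1))‖ ≤ 1 * 1 :=
            mul_le_mul (hf.bad p hp hN) ih (norm_nonneg _) zero_le_one
        _ = 1 := one_mul 1

theorem Cf.le (hf : Cf N c) (n : ℕ) : ‖c n‖ ≤ (n.divisors.card : ℝ) * Real.sqrt n := by
  induction n using Nat.recOnPosPrimePosCoprime with
  | prime_pow p j hp hj =>
    have h1 : ((p ^ j).divisors.card : ℝ) = (j : ℝ) + 1 := by
      rw [Nat.divisors_prime_pow hp, Finset.card_map, Finset.card_range]
      push_cast
      rfl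
    have h2 : Real.sqrt ((p ^ j : ℕ) : ℝ) = Real.sqrt p ^ j := by
      push_cast
      rw [Real.sqrt_eq_rpow, Real.sqrt_eq_rpow, ← Real.rpow_natCast, ← Real.rpow_natCast,
        ← Real.rpow_mul (Nat.cast_nonneg p), ← Real.rpow_mul (Nat.cast_nonneg p), mul_comm]
    rw [h1, h2]
    by_cases hN : p ∣ N
    · refine (hf.prime_pow_bad hp hN j).trans ?_
      have h3 : (1 : ℝ) ≤ Real.sqrt p := by
        rw [Real.one_le_sqrt]
        exact_mod_cast hp.one_lt.le
      have h4 : (1 : ℝ) ≤ Real.sqrt p ^ j := one_le_pow₀ h3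
      have h5 : (0 : ℝ) ≤ j := Nat.cast_nonneg j
      nlinarith
    · exact hf.prime_pow hp hN j
  | zero => simp [hf.zero]
  | one => simp [hf.one]
  | coprime a b ha hb hab iha ihb =>
    rw [hf.mul a b hab, norm_mul, Nat.Coprime.card_divisors_mul hab]
    push_cast
    rw [Real.sqrt_mul (Nat.cast_nonneg a)]
    calc ‖c a‖ * ‖c b‖ ≤ ((a.divisors.card : ℝ) * Real.sqrt a) * ((b.divisors.card : ℝ) * Real.sqrt b) :=
          mul_le_mul iha ihb (norm_nonneg _) (by positivity)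
      _ = _ := by ring

/-- the general term -/
noncomputable def tm (c : ℕ → ℂ) {q : ℕ} (χ : DirichletCharacter ℂ q) (s : ℂ) (n : ℕ) : ℂ :=
  χ (n : ZMod q) * c n * (n : ℂ) ^ (-s)

theorem Cf.summable (hf : Cf N c) {q : ℕ} (χ : DirichletCharacter ℂ q) {s : ℂ}
    (hs : 3 / 2 < s.re) : Summable (fun n : ℕ => ‖tm c χ s n‖) := by
  have hre : 1 < (s - 1 / 2 : ℂ).re := by
    rw [Complex.sub_re]
    norm_num
    linarith
  have hz : LSeriesSummable (fun n => ((ArithmeticFunction.zeta : ArithmeticFunction ℂ) n))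
      (s - 1 / 2) := by
    have := ArithmeticFunction.LSeriesSummable_zeta_iff.2 hre
    simpa using this
  have h1 := ArithmeticFunction.LSeriesSummable_mul hz hz
  have h2 := h1.norm
  refine Summable.of_nonneg_of_le (fun n => norm_nonneg _) (fun n => ?_) h2
  rcases Nat.eq_zero_or_pos n with rfl | hn
  · simp [tm, hf.zero]
  · rw [LSeries.norm_term_eq, if_neg hn.ne']
    have hn0 : (0 : ℝ) < n := by exact_mod_cast hn
    have e1 : ((ArithmeticFunction.zeta : ArithmeticFunction ℂ) *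
        (ArithmeticFunction.zeta : ArithmeticFunction ℂ)) n = (n.divisors.card : ℂ) := by
      rw [ArithmeticFunction.coe_zeta_mul_apply]
      rw [Finset.sum_congr rfl (g := fun _ => (1 : ℂ))]
      · simp
      · intro d hd
        have hd0 : d ≠ 0 := (Nat.pos_of_mem_divisors hd).ne'
        simp [hd0]
    rw [e1, Complex.norm_natCast]
    unfold tm
    rw [norm_mul, norm_mul, Complex.norm_natCast_cpow_of_pos hn]
    have h3 : ‖χ (n : ZMod q)‖ ≤ 1 := DirichletCharacter.norm_le_one _ _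
    have h4 := hf.le n
    have h5 : (0 : ℝ) ≤ (n : ℝ) ^ (-s).re := by positivity
    calc ‖χ (n : ZMod q)‖ * ‖c n‖ * (n : ℝ) ^ (-s).re ≤
          1 * ((n.divisors.card : ℝ) * Real.sqrt n) * (n : ℝ) ^ (-s).re := by gcongr
      _ = (n.divisors.card : ℝ) / (n : ℝ) ^ (s - 1 / 2 : ℂ).re := by
          rw [one_mul, mul_assoc, div_eq_mul_inv, ← Real.rpow_neg hn0.le, Real.sqrt_eq_rpow,
            ← Real.rpow_add hn0]
          congr 2
          rw [Complex.sub_re, Complex.neg_re]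
          norm_num
          ring

lemma natpow_cpow (p e : ℕ) (s : ℂ) : ((p ^ e : ℕ) : ℂ) ^ s = ((p : ℂ) ^ s) ^ e := by
  induction e with
  | zero => simp
  | succ e ih =>
    rw [pow_succ, Nat.cast_mul, Complex.natCast_mul_natCast_cpow, ih, pow_succ]

/-- the local factor -/
noncomputable def lf (N : ℕ) (c : ℕ → ℂ) {q : ℕ} (χ : DirichletCharacter ℂ q) (s : ℂ) (p : ℕ) : ℂ :=
  1 - χ (p : ZMod q) * c p * (p : ℂ) ^ (-s) +
    (if p ∣ N then 0 else χ (p : ZMod q) ^ 2 * (p : ℂ) ^ (1 - 2 * s))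

theorem Cf.local_mul (hf : Cf N c) {q : ℕ} (χ : DirichletCharacter ℂ q) {s : ℂ}
    (hs : 3 / 2 < s.re) {p : ℕ} (hp : p.Prime) :
    (∑' e : ℕ, tm c χ s (p ^ e)) * lf N c χ s p = 1 := by
  have hpc : (p : ℂ) ≠ 0 := by exact_mod_cast hp.ne_zero
  have hsum : Summable (fun e : ℕ => tm c χ s (p ^ e)) := by
    have h1 := (hf.summable χ hs).of_norm
    exact h1.comp_injective (Nat.pow_right_injective hp.two_le)
  set t : ℂ := χ (p : ZMod q) * c p * (p : ℂ) ^ (-s) with ht
  set u : ℂ := if p ∣ N then 0 else χ (p : ZMod q) ^ 2 * (p : ℂ) ^ (1 - 2 * s) with hu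
  have hP : (p : ℂ) ^ (1 - 2 * s) = p * ((p : ℂ) ^ (-s)) ^ 2 := by
    rw [show (1 - 2 * s : ℂ) = 1 + ((-s) + (-s)) by ring, Complex.cpow_add _ _ hpc,
      Complex.cpow_add _ _ hpc, Complex.cpow_one]
    ring
  have h0 : tm c χ s (p ^ 0) = 1 := by
    simp [tm, hf.one]
  have h1 : tm c χ s (p ^ 1) = t := by
    rw [pow_one]; rfl
  have hpw : ∀ e : ℕ, tm c χ s (p ^ e) = χ (p : ZMod q) ^ e * c (p ^ e) * ((p : ℂ) ^ (-s)) ^ e := by
    intro e
    unfold tm
    rw [natpow_cpow]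
    push_cast
    rw [map_pow]
  have h2 : ∀ e : ℕ, tm c χ s (p ^ (e + 2)) = t * tm c χ s (p ^ (e + 1)) - u * tm c χ s (p ^ e) := by
    intro e
    rw [hpw, hpw, hpw, hf.pow p e hp, ht, hu]
    split_ifs with h
    · ring
    · rw [hP]
      ring
  have e1 := hsum.tsum_eq_zero_add
  have hsum1 : Summable (fun e : ℕ => tm c χ s (p ^ (e + 1))) := (summable_nat_add_iff 1).2 hsum
  have e2 := hsum1.tsum_eq_zero_add
  have e3 : ∑' e : ℕ, tm c χ s (p ^ (e + 1 + 1)) =
      t * ∑' e : ℕ, tm c χ s (p ^ (e + 1)) - u * ∑' e : ℕ, tm c χ s (p ^ e) := by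
    rw [← tsum_mul_left, ← tsum_mul_left, ← (hsum1.mul_left t).tsum_sub (hsum.mul_left u)]
    exact tsum_congr fun e => h2 e
  rw [h0] at e1
  rw [zero_add, h1, e3] at e2
  set S := ∑' e : ℕ, tm c χ s (p ^ e) with hS
  set S1 := ∑' e : ℕ, tm c χ s (p ^ (e + 1)) with hS1
  have e4 : S * (1 - t + u) = 1 := by
    have : S1 = S - 1 := by rw [e1]; ring
    rw [this] at e2
    linear_combination e2
  have e5 : lf N c χ s p = 1 - t + u := rfl
  rw [e5]
  exact e4

theorem Cf.local_sum (hf : Cf N c) {q : ℕ} (χ : DirichletCharacter ℂ q) {s : ℂ}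
    (hs : 3 / 2 < s.re) {p : ℕ} (hp : p.Prime) :
    ∑' e : ℕ, tm c χ s (p ^ e) = (lf N c χ s p)⁻¹ :=
  eq_inv_of_mul_eq_one_left (hf.local_mul χ hs hp)

theorem Cf.lf_ne (hf : Cf N c) {q : ℕ} (χ : DirichletCharacter ℂ q) {s : ℂ}
    (hs : 3 / 2 < s.re) {p : ℕ} (hp : p.Prime) : lf N c χ s p ≠ 0 :=
  right_ne_zero_of_mul_eq_one (hf.local_mul χ hs hp)

theorem Cf.euler (hf : Cf N c) {q : ℕ} (χ : DirichletCharacter ℂ q) {s : ℂ}
    (hs : 3 / 2 < s.re) : HasProd (fun p : ℕ => if p.Prime then (lf N c χ s p)⁻¹ else 1)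
      (∑' n : ℕ, tm c χ s n) := by
  classical
  have h1 := EulerProduct.eulerProduct_hasProd_mulIndicator (f := tm c χ s)
    (by simp [tm, hf.one])
    (by
      intro m n hmn
      unfold tm
      rw [hf.mul m n hmn]
      push_cast
      rw [map_mul, Complex.natCast_mul_natCast_cpow]
      ring)
    (hf.summable χ hs) (by simp [tm, hf.zero])
  have e : (fun p : ℕ => if p.Prime then (lf N c χ s p)⁻¹ else 1) =
      Set.mulIndicator {p : ℕ | p.Prime} (fun p => ∑' e : ℕ, tm c χ s (p ^ e)) := by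
    funext p
    by_cases hp : p.Prime
    · rw [if_pos hp, Set.mulIndicator_of_mem (show p ∈ {p : ℕ | p.Prime} from hp),
        hf.local_sum χ hs hp]
    · rw [if_neg hp, Set.mulIndicator_of_notMem (show p ∉ {p : ℕ | p.Prime} from hp)]
  rw [e]
  exact h1

/-- the local factors do not vanish at `s = 1` -/
theorem Cf.lf_ne_zero (hf : Cf N c) {q : ℕ} (χ : DirichletCharacter ℂ q) {p : ℕ}
    (hp : p.Prime) (hχ : χ (p : ZMod q) = 1 ∨ χ (p : ZMod q) = -1 ∨ χ (p : ZMod q) = 0) :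
    lf N c χ 1 p ≠ 0 := by
  have hpc : (p : ℂ) ≠ 0 := by exact_mod_cast hp.ne_zero
  have hp1 : (1 : ℝ) < p := by exact_mod_cast hp.one_lt
  have hp0 : (0 : ℝ) < p := by linarith
  have hre : c p = ((c p).re : ℂ) := by
    apply Complex.ext
    · simp
    · simp [hf.real p]
  set x : ℝ := (c p).re with hx
  have hnx : ‖c p‖ = |x| := by rw [hre, Complex.norm_real, Real.norm_eq_abs]
  have hP : (p : ℂ) ^ (1 - 2 * (1 : ℂ)) = ((p : ℝ) : ℂ)⁻¹ := by
    rw [show (1 - 2 * (1 : ℂ)) = -1 by norm_num, Complex.cpow_neg_one]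
    push_cast; rfl
  have hQ : (p : ℂ) ^ (-(1 : ℂ)) = ((p : ℝ) : ℂ)⁻¹ := by
    rw [Complex.cpow_neg_one]
    push_cast; rfl
  unfold lf
  rw [hP, hQ, hre]
  by_cases hN : p ∣ N
  · have hb := hf.bad p hp hN
    rw [hnx] at hb
    rw [if_pos hN, add_zero]
    have h1 : |x * (p : ℝ)⁻¹| < 1 := by
      rw [abs_mul, abs_of_pos (inv_pos.2 hp0)]
      calc |x| * (p : ℝ)⁻¹ ≤ 1 * (p : ℝ)⁻¹ := mul_le_mul_of_nonneg_right hb (by positivity)
        _ < 1 := by rw [one_mul]; exact inv_lt_one_of_one_lt₀ hp1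
    have h2 := abs_lt.1 h1
    rcases hχ with h | h | h <;> rw [h]
    · intro h3
      have h4 : ((1 - x * (p : ℝ)⁻¹ : ℝ) : ℂ) = 0 := by
        push_cast
        rw [one_mul] at h3
        push_cast at h3
        exact h3
      have h5 : (1 - x * (p : ℝ)⁻¹ : ℝ) = 0 := by exact_mod_cast h4
      linarith [h2.2]
    · intro h3
      have h4 : ((1 + x * (p : ℝ)⁻¹ : ℝ) : ℂ) = 0 := by
        push_cast
        push_cast at h3
        linear_combination h3
      have h5 : (1 + x * (p : ℝ)⁻¹ : ℝ) = 0 := by exact_mod_cast h4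
      linarith [h2.1]
    · simp
  · have hb := hf.good p hp hN
    rw [hnx] at hb
    rw [if_neg hN]
    -- `|x| / p < 1 + 1 / p`
    have h1 : |x * (p : ℝ)⁻¹| < 1 + (p : ℝ)⁻¹ := by
      rw [abs_mul, abs_of_pos (inv_pos.2 hp0)]
      have h2 : Real.sqrt p * Real.sqrt p = p := Real.mul_self_sqrt hp0.le
      have h3 : 1 < Real.sqrt p := by
        rw [Real.lt_sqrt (by norm_num)]
        simpa using hp1
      have h4 : 2 * Real.sqrt p < p + 1 := by nlinarith
      calc |x| * (p : ℝ)⁻¹ ≤ (2 * Real.sqrt p) * (p : ℝ)⁻¹ :=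
            mul_le_mul_of_nonneg_right hb (by positivity)
        _ < (p + 1) * (p : ℝ)⁻¹ := by
            apply mul_lt_mul_of_pos_right h4 (by positivity)
        _ = 1 + (p : ℝ)⁻¹ := by field_simp
    have h2 := abs_lt.1 h1
    rcases hχ with h | h | h <;> rw [h]
    · intro h3
      have h4 : ((1 - x * (p : ℝ)⁻¹ + (p : ℝ)⁻¹ : ℝ) : ℂ) = 0 := by
        push_cast
        push_cast at h3
        linear_combination h3
      have h5 : (1 - x * (p : ℝ)⁻¹ + (p : ℝ)⁻¹ : ℝ) = 0 := by exact_mod_cast h4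
      linarith [h2.2]
    · intro h3
      have h4 : ((1 + x * (p : ℝ)⁻¹ + (p : ℝ)⁻¹ : ℝ) : ℂ) = 0 := by
        push_cast
        push_cast at h3
        linear_combination h3
      have h5 : (1 + x * (p : ℝ)⁻¹ + (p : ℝ)⁻¹ : ℝ) = 0 := by exact_mod_cast h4
      linarith [h2.1]
    · simp

end Pool.Agent.Y18.BSD
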