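import Pool.Agent.Y18.BSD.Bv
import Pool.Agent.Y18.BSD.Dir

/-!
The entire functions `L(f, χ, s)` and their values at `s = 1` in terms of the modular symbols.
-/

set_option autoImplicit false

open Complex Filter Topology Set UpperHalfPlane MatrixGroups CongruenceSubgroup ZMod

namespace Pool.Agent.Y18.BSD

open Pool.Agent.TH940 (prim prim_deriv Fr prim_fricke Pers prim_near prim_line exp_norm coeff_div_bd
  coeff_bd Th_tendsto prim_gauss mellin2)
open Pool.Agent.W108.TW (Th summable_term)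
open Pool.Agent.W440.TW (t_twist)

/-- identity theorem for Dirichlet series -/
lemma ident {L : ℂ → ℂ} (hL : Differentiable ℂ L) {a : ℕ → ℂ} {σ0 σ1 : ℝ}
    (h0 : ∀ s : ℂ, σ0 < s.re → LSeriesSummable a s)
    (h1 : ∀ s : ℂ, σ1 < s.re → L s = LSeries a s) : ∀ s : ℂ, σ0 < s.re → L s = LSeries a s := by
  have hab : LSeries.abscissaOfAbsConv a ≤ σ0 :=
    LSeries.abscissaOfAbsConv_le_of_forall_lt_LSeriesSummable fun y hy => h0 y (by simpa using hy)
  have hU : IsPreconnected {s : ℂ | σ0 < s.re} := (convex_halfSpace_re_gt σ0).isPreconnected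
  have hA : AnalyticOnNhd ℂ (LSeries a) {s : ℂ | σ0 < s.re} :=
    (LSeries_analyticOnNhd a).mono fun s (hs : σ0 < s.re) => by
      refine lt_of_le_of_lt hab ?_
      exact_mod_cast hs
  have hB : AnalyticOnNhd ℂ L {s : ℂ | σ0 < s.re} := fun s _ => hL.analyticAt s
  set z0 : ℂ := ((max σ0 σ1 + 1 : ℝ) : ℂ) with hz0
  have hz0re : z0.re = max σ0 σ1 + 1 := by rw [hz0, Complex.ofReal_re]
  have hz : z0 ∈ {s : ℂ | σ0 < s.re} := by
    show σ0 < z0.re
    rw [hz0re]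
    linarith [le_max_left σ0 σ1]
  have hev : L =ᶠ[𝓝 z0] LSeries a := by
    have hopen : IsOpen {s : ℂ | σ1 < s.re} := isOpen_lt continuous_const Complex.continuous_re
    filter_upwards [hopen.mem_nhds (show z0 ∈ {s : ℂ | σ1 < s.re} by
      show σ1 < z0.re
      rw [hz0re]
      linarith [le_max_right σ0 σ1])] with s hs
    exact h1 s hs
  exact fun s hs => hB.eqOn_of_preconnected_of_eventuallyEq hA hU hz hev hs

lemma tm_eq {c : ℕ → ℂ} (hc : c 0 = 0) {q : ℕ} (χ : DirichletCharacter ℂ q) (s : ℂ) :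
    tm c χ s = LSeries.term (fun n => χ (n : ZMod q) * c n) s := by
  funext n
  rcases Nat.eq_zero_or_pos n with rfl | hn
  · simp [tm, hc]
  · rw [LSeries.term_of_ne_zero hn.ne']
    unfold tm
    rw [Complex.cpow_neg, div_eq_mul_inv]

variable {N : ℕ} [NeZero N]

/-- the modular symbols and the central value -/
lemma link (f : CuspForm (Gamma0 N : Subgroup (GL (Fin 2) ℝ)) 2) {ε : ℂ} (hfr : Fr f ε)
    (q : ℕ) [NeZero q] (hco : Nat.Coprime q N) (χ : DirichletCharacter ℂ q) (hχ : χ.IsPrimitive)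
    (F0 W : ℂ)
    (hF : ∀ X Y : ℝ, 0 < X → 0 < Y → X * Y = N * (q : ℝ) ^ 2 / (4 * Real.pi ^ 2) →
          F0 = ∑' n : ℕ, χ⁻¹ (n : ZMod q) * (qExpansion 1 f).coeff n / n *
              (Real.exp (-(n / X)) : ℂ) +
            W * ∑' n : ℕ, (starRingEnd ℂ) (χ⁻¹ (n : ZMod q) * (qExpansion 1 f).coeff n) / n *
              (Real.exp (-(n / Y)) : ℂ)) :
    gaussSum χ (stdAddChar (N := q)) * F0 =
      ∑ u : (ZMod q)ˣ, χ (u : ZMod q) * bv f (((u : ZMod q).val : ℚ) / q) := by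
  have hq0 : (0 : ℝ) < q := Nat.cast_pos.2 (Nat.pos_of_ne_zero (NeZero.ne q))
  have hN0 : (0 : ℝ) < N := Nat.cast_pos.2 (Nat.pos_of_ne_zero (NeZero.ne N))
  have hpi := Real.pi_pos
  obtain ⟨C, hC0, hC⟩ := coeff_div_bd f
  have hden : ∀ u : (ZMod q)ˣ, (((u : ZMod q).val : ℚ) / q).den.Coprime N := by
    intro u
    rw [den_iff]
    refine ⟨q, hco, ((u : ZMod q).val : ℤ), ?_⟩
    have : (q : ℚ) ≠ 0 := by exact_mod_cast NeZero.ne q
    field_simp
    push_cast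
    rfl
  have h1 : Tendsto (fun y : ℝ => ∑ u : (ZMod q)ˣ, χ (u : ZMod q) *
        prim f (((((u : ZMod q).val : ℤ)) : ℂ) / q + (y : ℂ) * Complex.I)) (𝓝[>] 0)
        (𝓝 (∑ u : (ZMod q)ˣ, χ (u : ZMod q) * bv f (((u : ZMod q).val : ℚ) / q))) := by
    refine tendsto_finsetSum _ fun u _ => Tendsto.const_mul _ ?_
    have h2 := bv_tendsto f hfr (((u : ZMod q).val : ℚ) / q) (hden u)
    push_cast at h2 ⊢
    exact h2
  set a : ℕ → ℂ := fun n => (starRingEnd ℂ) (χ⁻¹ (n : ZMod q) * (qExpansion 1 f).coeff n) / n with ha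
  have ha0 : a 0 = 0 := by
    simp only [ha]
    rw [W388.coeff_zero f]; simp
  have hab : ∀ n : ℕ, 1 ≤ n → ‖a n‖ ≤ C * (n : ℝ) ^ (1 : ℝ) := by
    intro n hn
    have h3 := hC n hn (χ⁻¹ (n : ZMod q)) (DirichletCharacter.norm_le_one _ _)
    refine le_trans (le_of_eq ?_) h3
    simp only [ha]
    rw [norm_div, RCLike.norm_conj, norm_mul, norm_mul, norm_div]
    ring
  have hT : Tendsto (fun y : ℝ => (N * (q : ℝ) ^ 2)⁻¹ * y⁻¹) (𝓝[>] 0) atTop :=
    (tendsto_inv_nhdsGT_zero).const_mul_atTop (by positivity)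
  have h4 : Tendsto (fun y : ℝ => gaussSum χ (stdAddChar (N := q)) *
      (F0 - W * Th a (2 * Real.pi) ((N * (q : ℝ) ^ 2)⁻¹ * y⁻¹))) (𝓝[>] 0)
      (𝓝 (gaussSum χ (stdAddChar (N := q)) * (F0 - W * 0))) :=
    (((((Th_tendsto ha0 hab (by positivity)).comp hT).const_mul W).const_sub F0).const_mul _)
  rw [mul_zero, sub_zero] at h4
  refine tendsto_nhds_unique h4 (h1.congr' ?_)
  filter_upwards [self_mem_nhdsWithin] with y (hy : 0 < y)
  rw [prim_gauss f χ hχ hy]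
  congr 1
  have h5 := hF (1 / (2 * Real.pi * y)) (N * (q : ℝ) ^ 2 * y / (2 * Real.pi)) (by positivity)
    (by positivity) (by field_simp; ring)
  rw [h5]
  have e1 : ∀ n : ℕ, Real.exp (-(2 * Real.pi * n * y)) =
      Real.exp (-(n / (1 / (2 * Real.pi * y)))) := by
    intro n
    congr 1
    field_simp
  have e2 : Th a (2 * Real.pi) ((N * (q : ℝ) ^ 2)⁻¹ * y⁻¹) = ∑' n : ℕ, (starRingEnd ℂ) (χ⁻¹ (n : ZMod q) *
      (qExpansion 1 f).coeff n) / n *
        (Real.exp (-(n / (N * (q : ℝ) ^ 2 * y / (2 * Real.pi)))) : ℂ) := by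
    unfold Th
    refine tsum_congr fun n => ?_
    congr 3
    field_simp
  rw [e2]
  simp only [e1]
  ring

/-- the twisted `L`-function -/
theorem exists_L {f : CuspForm (Gamma0 N : Subgroup (GL (Fin 2) ℝ)) 2} {w : ℝ}
    (hf : W388.IsNewf N 2 f w) (hfr : Fr f (w : ℂ)) (hc : Cf N (co f)) (q : ℕ) [NeZero q]
    (χ : DirichletCharacter ℂ q) (hχ : χ.IsPrimitive) (hco : Nat.Coprime q N) :
    ∃ L : ℂ → ℂ, Differentiable ℂ L ∧
      (∀ s : ℂ, 3 / 2 < s.re → L s = ∑' n : ℕ, tm (co f) χ s n) ∧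
      gaussSum χ⁻¹ (stdAddChar (N := q)) * L 1 =
        ∑ u : (ZMod q)ˣ, χ⁻¹ (u : ZMod q) * bv f (((u : ZMod q).val : ℚ) / q) := by
  have hq1 : (1 : ℝ) ≤ q := by exact_mod_cast Nat.pos_of_ne_zero (NeZero.ne q)
  have hN1 : (1 : ℝ) ≤ N := by exact_mod_cast Nat.pos_of_ne_zero (NeZero.ne N)
  have hs1 : (1 : ℝ) ≤ Real.sqrt N := by rw [Real.one_le_sqrt]; exact hN1
  obtain ⟨C, hC0, hC⟩ := coeff_bd f
  obtain ⟨K, -, hK⟩ := mellin2 1 C (by norm_num) (by norm_num)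
  obtain ⟨w', hw', hth⟩ := t_twist N 2 (by norm_num) f w hf q χ hχ hco
  obtain ⟨F, hF1, hF2, hF3, -⟩ := hK (fun n => χ (n : ZMod q) * (qExpansion 1 f).coeff n)
    (Real.sqrt N * q) (by nlinarith) (by rw [W388.coeff_zero f, mul_zero])
    (fun n hn => by
      rw [norm_mul]
      have h1 := DirichletCharacter.norm_le_one χ (n : ZMod q)
      calc ‖χ (n : ZMod q)‖ * ‖(qExpansion 1 f).coeff n‖ ≤ 1 * ‖(qExpansion 1 f).coeff n‖ :=
            mul_le_mul_of_nonneg_right h1 (norm_nonneg _)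
        _ ≤ _ := by rw [one_mul]; exact hC n hn) w' hw'
    (fun t ht => by
      have := hth t ht
      rw [zpow_ofNat] at this
      exact this)
  have hL : Differentiable ℂ (fun s : ℂ => F (s - 1 / 2)) := hF1.comp (by fun_prop)
  refine ⟨fun s => F (s - 1 / 2), hL, ?_, ?_⟩
  · have h1 : ∀ s : ℂ, 3 / 2 < s.re → LSeriesSummable (fun n => χ (n : ZMod q) * co f n) s := by
      intro s hs
      have h2 := (hc.summable χ hs).of_norm
      rw [tm_eq hc.zero] at h2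
      exact h2
    have h2 := ident (σ0 := 3 / 2) (σ1 := 7 / 2) hL h1 (fun s hs => by
      have h3 : (1 : ℝ) + 2 < (s - 1 / 2 : ℂ).re := by
        rw [Complex.sub_re]
        norm_num
        linarith
      rw [hF2 (s - 1 / 2) h3]
      unfold LSeries
      rw [← tm_eq hc.zero]
      refine tsum_congr fun n => ?_
      unfold tm co
      rw [show (s - 1 / 2 + 1 / 2 : ℂ) = s by ring])
    intro s hs
    show F (s - 1 / 2) = _
    rw [h2 s hs]
    unfold LSeries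
    rw [← tm_eq hc.zero]
  · have hχi : χ⁻¹.IsPrimitive := Pool.Agent.W440.TW.inv_primitive χ hχ
    have h1 : (1 : ℂ) - 1 / 2 = 1 / 2 := by norm_num
    simp only [h1]
    refine link f hfr q hco χ⁻¹ hχi (F (1 / 2)) w' (fun X Y hX hY hXY => ?_)
    rw [inv_inv]
    refine hF3 X Y hX hY ?_
    rw [hXY, mul_pow, Real.sq_sqrt (by linarith)]

end Pool.Agent.Y18.BSD
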