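import Pool.Agent.Y18.BSD.Tw
import Pool.Agent.Y18.BSD.Corr

/-!
The central values of the quadratic twists of several elliptic curves by the elements of a group of
square classes: a positive proportion of them does not vanish.
-/

set_option autoImplicit false

open Complex Filter Topology Set UpperHalfPlane MatrixGroups CongruenceSubgroup ZMod
open scoped symmDiff

namespace Pool.Agent.Y18.BSD

open Pool.Agent.TH940 (Fr)
open Pool.Agent.W263.BSD (pointCount GoodPrime IsLSeries)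

lemma jac_prod {T : Finset ℕ} (hT : ∀ q ∈ T, q.Prime) (n : ℤ) :
    jacobiSym n (dd T) = ∏ q ∈ T, jacobiSym n q := by
  classical
  induction T using Finset.induction_on with
  | empty => simp [dd, jacobiSym.one_right]
  | insert q T hq ih =>
    have h1 : ∀ x ∈ T, x.Prime := fun x hx => hT x (Finset.mem_insert_of_mem hx)
    have : NeZero (dd T) := ⟨dd_ne_zero h1⟩
    have : NeZero q := ⟨(hT q (Finset.mem_insert_self q T)).ne_zero⟩
    rw [dd_insert hq, Finset.prod_insert hq, jacobiSym.mul_right, ih h1]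

/-- the primes at which the character of `u` is `-1` -/
noncomputable def UU (S : Finset ℕ) {M : ℕ} (u : (ZMod M)ˣ) : Finset ℕ :=
  S.filter (fun q => jacobiSym ((u : ZMod M).val : ℤ) q = -1)

lemma jc_eps {S T : Finset ℕ} (hS : ∀ q ∈ S, q.Prime) (hTS : T ⊆ S) {M : ℕ} [NeZero M]
    (hM : dd S ∣ M) (u : (ZMod M)ˣ) : jc T u = eps (UU S u) T := by
  unfold jc eps
  rw [jac_prod (fun q hq => hS q (hTS hq))]
  refine Finset.prod_congr rfl fun q hq => ?_
  have hqS := hTS hq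
  have h1 : Nat.Coprime (u : ZMod M).val M := ZMod.val_coe_unit_coprime u
  have h2 : Nat.Coprime (u : ZMod M).val q :=
    h1.coprime_dvd_right ((Finset.dvd_prod_of_mem _ hqS).trans hM)
  have h3 : jacobiSym ((u : ZMod M).val : ℤ) q = 1 ∨
      jacobiSym ((u : ZMod M).val : ℤ) q = -1 :=
    jacobiSym.eq_one_or_neg_one (by rw [Int.gcd_natCast_natCast]; exact h2)
  by_cases h4 : q ∈ UU S u
  · rw [if_pos h4]
    exact (Finset.mem_filter.1 h4).2
  · rw [if_neg h4]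
    rcases h3 with h | h
    · exact h
    · exact absurd (Finset.mem_filter.2 ⟨hqS, h⟩) h4

lemma psi_one (g : ℚ → ℂ) (M : ℕ) [NeZero M] (hM : M = 1) : psi g ∅ M = g 0 := by
  subst hM
  unfold psi
  rw [Fintype.sum_unique]
  have h4 : ((default : (ZMod 1)ˣ) : ZMod 1).val = 0 := by
    have := ZMod.val_lt ((default : (ZMod 1)ˣ) : ZMod 1)
    omega
  unfold jc FF
  rw [h4]
  simp [dd, jacobiSym.one_right]

lemma jc_union {S T : Finset ℕ} (hS : ∀ q ∈ S, q.Prime) (hT : ∀ q ∈ T, q.Prime)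
    (hd : Disjoint T S) {M : ℕ} (u : (ZMod M)ˣ) : jc (T ∪ S) u = jc T u * jc S u := by
  unfold jc
  rw [jac_prod hS, jac_prod hT, jac_prod (fun q hq => by
    rcases Finset.mem_union.1 hq with h | h
    · exact hT q h
    · exact hS q h), Finset.prod_union hd]

lemma disc_union {S T : Finset ℕ} (hd : Disjoint T S) : disc (T ∪ S) = disc S * disc T := by
  unfold disc
  rw [Finset.prod_union hd, mul_comm]

section one

variable {N : ℕ} [NeZero N] {a b : ℤ} {f : CuspForm (Gamma0 N : Subgroup (GL (Fin 2) ℝ)) 2}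

/-- the data extracted from one curve -/
theorem one_curve (hΔ : 4 * a ^ 3 + 27 * b ^ 2 ≠ 0) (hf : IsFormOf a b N f) {B : Finset ℕ}
    (hB : ∀ q ∈ B, GoodPrime a b q) (h0 : RankZero (a * disc B ^ 2) (b * disc B ^ 3)) :
    ∃ β : Finset ℕ → ℤ, β ∅ ≠ 0 ∧
      (∀ T : Finset ℕ, (∀ q ∈ T, Adm a b q ∧ q ∉ B) → β T ≠ 0 →
        RankZero (a * (disc B * disc T) ^ 2) (b * (disc B * disc T) ^ 3)) ∧
      ∀ S : Finset ℕ, (∀ q ∈ S, Adm a b q ∧ q ∉ B) →
        ∃ A ∈ Comb, ∀ T ⊆ S, ∃ o : ℤ, ¬ (2 : ℤ) ∣ o ∧ A T = o * β T := by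
  classical
  obtain ⟨w, hnf, hfr⟩ := hf.newf
  have hrel := hf.hrel
  -- a good prime
  obtain ⟨p0, hp0⟩ : ∃ p : ℕ, GoodPrime a b p := by
    have hD : (2 * (-4 * a ^ 3 - 27 * b ^ 2) : ℤ) ≠ 0 := by
      intro h
      apply hΔ
      omega
    obtain ⟨p, hp1, hp2⟩ := Nat.exists_infinite_primes ((2 * (-4 * a ^ 3 - 27 * b ^ 2) : ℤ).natAbs + 1)
    refine ⟨p, hp2, fun h => ?_⟩
    have h1 : p ∣ (2 * (-4 * a ^ 3 - 27 * b ^ 2) : ℤ).natAbs := Int.natCast_dvd.1 h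
    have h2 := Nat.le_of_dvd (Int.natAbs_pos.2 hD) h1
    omega
  obtain ⟨hp0N, hcp0⟩ := hf.points p0 hp0
  set n0 : ℤ := (p0 : ℤ) + 1 - ((p0 : ℤ) - (pointCount a b p0 : ℤ)) with hn0
  have hn00 : n0 ≠ 0 := by
    have : n0 = (pointCount a b p0 : ℤ) + 1 := by rw [hn0]; ring
    rw [this]
    positivity
  have hmem : ∀ r : ℚ, (n0 : ℂ) * bv f r ∈ PG f := fun r =>
    bv_mem hrel hfr hp0.1 hp0N ((p0 : ℤ) - (pointCount a b p0 : ℤ)) (by rw [hcp0]; push_cast; rfl) r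
  have hBp : ∀ q ∈ B, q.Prime := fun q hq => (hB q hq).1
  have hneB : NeZero (dd B) := ⟨dd_ne_zero hBp⟩
  -- the sums are periods
  have hpsi : ∀ (T : Finset ℕ) (M : ℕ) [NeZero M], ∃ x : PG f, (x : ℂ) = (n0 : ℂ) * psi (bv f) T M ∧
      x = ∑ u : (ZMod M)ˣ, (jc T u) • (⟨(n0 : ℂ) * FF (bv f) M u, hmem _⟩ : PG f) := by
    intro T M _
    refine ⟨_, ?_, rfl⟩
    rw [AddSubgroup.val_finsetSum]
    unfold psi
    rw [Finset.mul_sum]
    refine Finset.sum_congr rfl fun u _ => ?_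
    rw [AddSubgroup.coe_zsmul, zsmul_eq_mul]
    show (jc T u : ℂ) * ((n0 : ℂ) * FF (bv f) M u) = _
    ring
  -- the base value
  obtain ⟨x0, hx0, -⟩ := hpsi B (dd B)
  have hx00 : x0 ≠ 0 := by
    intro h
    rw [h] at hx0
    obtain ⟨G, hG, κ, hκ, h1⟩ := twist_lseries hΔ hf hB
    obtain ⟨F, hF, hF1⟩ := h0
    have h2 := isLSeries_unique hG hF
    rw [h2] at h1
    rw [← h1] at hx0
    have h3 : (n0 : ℂ) * (κ * F 1) = 0 := hx0.symm
    rcases mul_eq_zero.1 h3 with h4 | h4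
    · exact hn00 (by exact_mod_cast h4)
    · exact mul_ne_zero hκ hF1 h4
  obtain ⟨l, hl⟩ := exists_functional f _ hx00
  -- the normalised values
  have hβ : ∀ T : Finset ℕ, ∃ z : ℤ, ∀ [NeZero (dd (T ∪ B))], ∃ x : PG f,
      (x : ℂ) = (n0 : ℂ) * psi (bv f) (T ∪ B) (dd (T ∪ B)) ∧ l x = z := by
    intro T
    by_cases h : dd (T ∪ B) = 0
    · exact ⟨0, fun {hi} => absurd h hi.out⟩
    · have : NeZero (dd (T ∪ B)) := ⟨h⟩
      obtain ⟨x, hx, -⟩ := hpsi (T ∪ B) (dd (T ∪ B))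
      exact ⟨l x, fun {_} => ⟨x, hx, rfl⟩⟩
  choose β hβ using hβ
  have hunion : ∀ T : Finset ℕ, (∀ q ∈ T, Adm a b q ∧ q ∉ B) → ∀ q ∈ T ∪ B, GoodPrime a b q := by
    intro T hT q hq
    rcases Finset.mem_union.1 hq with h | h
    · exact (hT q h).1.1
    · exact hB q h
  refine ⟨β, ?_, ?_, ?_⟩
  · have h1 : NeZero (dd (∅ ∪ B)) := ⟨by rw [Finset.empty_union]; exact dd_ne_zero hBp⟩
    obtain ⟨x, hx1, hx2⟩ := hβ ∅
    simp only [Finset.empty_union] at hx1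
    have : x = x0 := Subtype.ext (by rw [hx1, hx0])
    rw [← hx2, this]
    exact hl
  · intro T hT hβT
    have hTg := hunion T hT
    have hdTB : Disjoint T B := Finset.disjoint_left.2 fun q hq => (hT q hq).2
    have hne1 : NeZero (dd (T ∪ B)) := ⟨dd_ne_zero fun q hq => (hTg q hq).1⟩
    obtain ⟨G, hG, κ, hκ, h1⟩ := twist_lseries hΔ hf hTg
    rw [disc_union hdTB] at hG
    refine ⟨G, hG, fun hG1 => hβT ?_⟩
    obtain ⟨x, hx1, hx2⟩ := hβ T
    rw [hG1, mul_zero] at h1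
    rw [← h1, mul_zero] at hx1
    have h3 : x = 0 := Subtype.ext hx1
    rw [← hx2, h3, map_zero]
  · intro S hS
    have hSg : ∀ q ∈ S, GoodPrime a b q := fun q hq => (hS q hq).1.1
    have hSp : ∀ q ∈ S, q.Prime := fun q hq => (hSg q hq).1
    have hdSB : Disjoint S B := Finset.disjoint_left.2 fun q hq => (hS q hq).2
    have hSBp : ∀ q ∈ S ∪ B, q.Prime := fun q hq => (hunion S hS q hq).1
    have hne : NeZero (dd (S ∪ B)) := ⟨dd_ne_zero hSBp⟩
    have hSM : dd S ∣ dd (S ∪ B) := dd_dvd Finset.subset_union_left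
    set g : (ZMod (dd (S ∪ B)))ˣ → PG f := fun u =>
      ⟨(n0 : ℂ) * FF (bv f) (dd (S ∪ B)) u, hmem _⟩ with hg
    set A : Finset ℕ → ℤ := fun T => ∑ u : (ZMod (dd (S ∪ B)))ˣ,
      eps (UU S u) T * (jc B u * l (g u)) with hA
    have hAC : A ∈ Comb := by
      have : A = ∑ u : (ZMod (dd (S ∪ B)))ˣ, (jc B u * l (g u)) • eps (UU S u) := by
        funext T
        rw [hA, Finset.sum_apply]
        refine Finset.sum_congr rfl fun u _ => ?_
        simp only [Pi.smul_apply, smul_eq_mul]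
        ring
      rw [this]
      exact Comb.sum_mem fun u _ => Comb.smul_mem _ (eps_mem _)
    have hTd : ∀ T ⊆ S, Disjoint T B := fun T hT => hdSB.mono_left hT
    refine ⟨A, hAC, fun T hT => ?_⟩
    have hTp : ∀ q ∈ T ∪ B, q.Prime := fun q hq =>
      (hunion T (fun q hq => hS q (hT hq)) q hq).1
    have hne1 : NeZero (dd (T ∪ B)) := ⟨dd_ne_zero hTp⟩
    obtain ⟨x, hx1, hx2⟩ := hpsi (T ∪ B) (dd (S ∪ B))
    have hlx : l x = A T := by
      rw [hx2, map_sum]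
      refine Finset.sum_congr rfl fun u _ => ?_
      rw [map_zsmul, smul_eq_mul, jc_union hBp (fun q hq => hSp q (hT hq)) (hTd T hT) u,
        jc_eps hSp hT hSM u, mul_assoc]
    have hu : S \ T ∪ (T ∪ B) = S ∪ B := by
      rw [← Finset.union_assoc, Finset.sdiff_union_of_subset hT]
    have hprod := psi_prod (bv f) (bv_period f) (fun q => (q : ℂ) - (pointCount a b q : ℂ)) (T ∪ B)
      (S \ T)
      (by
        rw [Finset.disjoint_union_right]
        exact ⟨Finset.sdiff_disjoint, hdSB.mono_left Finset.sdiff_subset⟩) (by rw [hu]; exact hSBp)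
      (fun q hq r => by
        have hqS := (Finset.mem_sdiff.1 hq).1
        obtain ⟨h1, h2⟩ := hf.points q (hSg q hqS)
        rw [← h2]
        exact bv_hecke hrel hfr (hSp q hqS) h1 r) (dd (S ∪ B)) (dd (T ∪ B)) (by rw [hu]) rfl
    obtain ⟨y, hy1, hy2⟩ := hβ T
    have h4 : x = (∏ q ∈ S \ T, (((q : ℤ) - (pointCount a b q : ℤ)) -
        2 * jacobiSym q (dd (T ∪ B)))) • y := by
      apply Subtype.ext
      rw [AddSubgroup.coe_zsmul, hx1, hprod, hy1, zsmul_eq_mul]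
      push_cast
      ring
    refine ⟨∏ q ∈ S \ T, (((q : ℤ) - (pointCount a b q : ℤ)) - 2 * jacobiSym q (dd (T ∪ B))),
      ?_, by rw [← hlx, h4, map_zsmul, smul_eq_mul, hy2]⟩
    -- odd
    intro h
    rw [Int.prime_two.dvd_finsetProd_iff] at h
    obtain ⟨q, hq, h1⟩ := h
    have hqS := (Finset.mem_sdiff.1 hq).1
    have : Fact q.Prime := ⟨hSp q hqS⟩
    have hq2 : q ≠ 2 := good_ne_two (hSg q hqS)
    have h2 := parity q hq2 a b (hS q hqS).1.2
    have h3 : (2 : ℤ) ∣ (q : ℤ) := by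
      have h4 := dvd_add (dvd_add h1 h2)
        (Dvd.intro (jacobiSym q (dd (T ∪ B))) rfl : (2 : ℤ) ∣ 2 * jacobiSym q (dd (T ∪ B)))
      have e : (q : ℤ) - (pointCount a b q : ℤ) - 2 * jacobiSym q (dd (T ∪ B)) +
        (pointCount a b q : ℤ) + 2 * jacobiSym q (dd (T ∪ B)) = q := by ring
      rwa [e] at h4
    have h4 : 2 ∣ q := by exact_mod_cast h3
    exact hq2 ((Nat.prime_dvd_prime_iff_eq Nat.prime_two (hSp q hqS)).1 h4).symm

end one

/-- **Main theorem.** -/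
theorem main (m : ℕ) (a b : Fin m → ℤ) (hΔ : ∀ i, 4 * a i ^ 3 + 27 * b i ^ 2 ≠ 0)
    (N : Fin m → ℕ) [∀ i, NeZero (N i)]
    (f : (i : Fin m) → CuspForm (Gamma0 (N i) : Subgroup (GL (Fin 2) ℝ)) 2)
    (hf : ∀ i, IsFormOf (a i) (b i) (N i) (f i)) (B : Fin m → Finset ℕ)
    (hB : ∀ i, ∀ q ∈ B i, GoodPrime (a i) (b i) q)
    (h0 : ∀ i, RankZero (a i * disc (B i) ^ 2) (b i * disc (B i) ^ 3)) :
    ∃ V : ℕ, ∀ H : Set (Finset ℕ), ∅ ∈ H → (∀ S ∈ H, ∀ T ∈ H, S ∆ T ∈ H) →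
      (∀ T ∈ H, ∀ q ∈ T, ∀ i, Adm (a i) (b i) q ∧ q ∉ B i) →
      ∃ K : Finset (Finset ℕ), K.card ≤ 2 ^ V ∧ ∅ ∈ K ∧ (∀ S ∈ K, ∀ T ∈ K, S ∆ T ∈ K) ∧
        (∀ T ∈ K, T ∈ H) ∧ ∀ T ∈ H, ∃ k ∈ K, ∀ i,
          RankZero (a i * (disc (B i) * disc (T ∆ k)) ^ 2)
            (b i * (disc (B i) * disc (T ∆ k)) ^ 3) := by
  classical
  choose β hβ0 hβr hβA using fun i => one_curve (hΔ i) (hf i) (hB i) (h0 i)
  set P : ℤ := ∏ i, β i ∅ with hP
  have hP0 : P ≠ 0 := Finset.prod_ne_zero_iff.2 fun i _ => hβ0 i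
  refine ⟨P.natAbs, fun H hH0 hHc hHa => ?_⟩
  have hV : ¬ (2 : ℤ) ^ (P.natAbs + 1) ∣ (∏ i, β i) ∅ := by
    rw [Finset.prod_apply]
    intro h1
    have h2 := Int.natAbs_dvd_natAbs.2 h1
    rw [Int.natAbs_pow] at h2
    have h3 := Nat.le_of_dvd (Int.natAbs_pos.2 hP0) h2
    have h4 : P.natAbs + 1 < (Int.natAbs 2) ^ (P.natAbs + 1) := Nat.lt_two_pow_self
    omega
  obtain ⟨K, hK1, hK2, hK3, hK4, hK5⟩ := correction (∏ i, β i) H hH0 hHc P.natAbs hV (by
    intro S hS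
    have hS' : ∀ i, ∀ q ∈ S, Adm (a i) (b i) q ∧ q ∉ B i := by
      intro i q hq
      obtain ⟨T, hT, hqT⟩ := hS q hq
      exact hHa T hT q hqT i
    choose A hAC hA using fun i => hβA i S (hS' i)
    refine ⟨∏ i, A i, Comb.prod_mem _ _ fun i _ => hAC i, fun T hT => ?_⟩
    choose o ho hoA using fun i => hA i T hT
    refine ⟨∏ i, o i, ?_, ?_⟩
    · intro h
      rw [Int.prime_two.dvd_finsetProd_iff] at h
      obtain ⟨i, -, h1⟩ := h
      exact ho i h1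
    · rw [Finset.prod_apply, Finset.prod_apply, ← Finset.prod_mul_distrib]
      exact Finset.prod_congr rfl fun i _ => hoA i)
  refine ⟨K, hK1, hK2, hK3, hK4, fun T hT => ?_⟩
  obtain ⟨k, hk, h⟩ := hK5 T hT
  refine ⟨k, hk, fun i => ?_⟩
  have hTk : T ∆ k ∈ H := hHc _ hT _ (hK4 k hk)
  refine hβr i (T ∆ k) (fun q hq => hHa _ hTk q hq i) fun h1 => h ?_
  rw [Finset.prod_apply]
  exact Finset.prod_eq_zero (Finset.mem_univ i) h1

end Pool.Agent.Y18.BSD
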