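import Pool.Agent.TH940.Cen

/-!
The group of the periods of a weight two cusp form for `Γ₀(N)`: it is finitely generated.
-/

set_option autoImplicit false

open Complex Filter Topology Set UpperHalfPlane MatrixGroups CongruenceSubgroup

namespace Pool.Agent.Y18.BSD

open Pool.Agent.TH940 (prim prim_deriv Fr prim_fricke Pers prim_near prim_line)

variable {N : ℕ} [NeZero N]

/-- the period of `γ` -/
lemma exists_per (f : CuspForm (Gamma0 N : Subgroup (GL (Fin 2) ℝ)) 2) (γ : SL(2, ℤ))
    (hγ : γ ∈ Gamma0 N) :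
    ∃ ω : ℂ, ∀ z : ℍ, prim f ((γ • z : ℍ) : ℂ) = prim f (z : ℂ) + ω := by
  set a : ℂ := ((γ 0 0 : ℤ) : ℂ) with ha
  set b : ℂ := ((γ 0 1 : ℤ) : ℂ) with hb
  set c : ℂ := ((γ 1 0 : ℤ) : ℂ) with hc
  set d : ℂ := ((γ 1 1 : ℤ) : ℂ) with hd
  have hdet : a * d - b * c = 1 := by
    have h1 := Matrix.SpecialLinearGroup.det_coe γ
    rw [Matrix.det_fin_two] at h1
    rw [ha, hb, hc, hd]
    exact_mod_cast h1
  have hopen : IsOpen {z : ℂ | 0 < z.im} := isOpen_lt continuous_const Complex.continuous_im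
  have hden : ∀ z : ℍ, denom (γ : GL (Fin 2) ℝ) z = c * z + d := by
    intro z
    rw [ModularGroup.denom_apply]
  have hact : ∀ z : ℍ, ((γ • z : ℍ) : ℂ) = (a * z + b) / (c * z + d) := by
    intro z
    rw [ModularGroup.sl_moeb, coe_smul_of_det_pos (by simp) z, hden z]
    congr 1
  have hne : ∀ z : ℂ, 0 < z.im → c * z + d ≠ 0 := by
    intro z hz
    have h1 := denom_ne_zero (γ : GL (Fin 2) ℝ) (⟨z, hz⟩ : ℍ)
    rw [hden] at h1
    exact h1
  have hder : ∀ z : ℂ, 0 < z.im →
      HasDerivAt (fun z => prim f ((a * z + b) / (c * z + d)) - prim f z) 0 z := by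
    intro z hz
    let τ : ℍ := ⟨z, hz⟩
    have hτ : (τ : ℂ) = z := rfl
    have h0 := hne z hz
    have h1 : HasDerivAt (prim f) (2 * Real.pi * Complex.I * f τ) z := prim_deriv f τ
    have h2 : HasDerivAt (prim f) (2 * Real.pi * Complex.I * f (γ • τ))
        ((a * z + b) / (c * z + d)) := by
      have := prim_deriv f (γ • τ)
      rw [hact τ] at this
      exact this
    have h3 : HasDerivAt (fun z : ℂ => (a * z + b) / (c * z + d)) (1 / (c * z + d) ^ 2) z := by
      have h4 : HasDerivAt (fun z : ℂ => a * z + b) a z := by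
        simpa using ((hasDerivAt_id z).const_mul a).add_const b
      have h5 : HasDerivAt (fun z : ℂ => c * z + d) c z := by
        simpa using ((hasDerivAt_id z).const_mul c).add_const d
      refine (h4.div h5 h0).congr_deriv ?_
      congr 1
      linear_combination hdet
    refine ((h2.comp z h3).sub h1).congr_deriv ?_
    have e1 := SlashInvariantForm.slash_action_eqn_SL'' f hγ τ
    rw [e1, hden τ, hτ]
    have h6 : (c * z + d) ^ (2 : ℤ) = (c * z + d) ^ 2 := by norm_cast
    rw [h6]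
    field_simp
    ring
  refine ⟨prim f ((a * Complex.I + b) / (c * Complex.I + d)) - prim f Complex.I, fun z => ?_⟩
  have h8 := hopen.is_const_of_deriv_eq_zero (convex_halfSpace_im_gt 0).isPreconnected
    (fun w hw => (hder w hw).differentiableAt.differentiableWithinAt) (fun w hw => (hder w hw).deriv)
    (show (0 : ℝ) < (z : ℂ).im from z.im_pos) (show (0 : ℝ) < Complex.I.im by simp)
  have h9 : prim f ((a * (z : ℂ) + b) / (c * (z : ℂ) + d)) - prim f (z : ℂ) =
      prim f ((a * Complex.I + b) / (c * Complex.I + d)) - prim f Complex.I := h8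
  rw [hact z, ← h9]
  ring

/-- the period of `γ` -/
noncomputable def per (f : CuspForm (Gamma0 N : Subgroup (GL (Fin 2) ℝ)) 2) (γ : Gamma0 N) : ℂ :=
  (exists_per f γ γ.2).choose

lemma per_spec (f : CuspForm (Gamma0 N : Subgroup (GL (Fin 2) ℝ)) 2) (γ : Gamma0 N) (z : ℍ) :
    prim f (((γ : SL(2, ℤ)) • z : ℍ) : ℂ) = prim f (z : ℂ) + per f γ :=
  (exists_per f γ γ.2).choose_spec z

lemma per_mul (f : CuspForm (Gamma0 N : Subgroup (GL (Fin 2) ℝ)) 2) (γ δ : Gamma0 N) :
    per f (γ * δ) = per f γ + per f δ := by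
  have z : ℍ := UpperHalfPlane.I
  have h1 := per_spec f (γ * δ) z
  have h2 := per_spec f γ ((δ : SL(2, ℤ)) • z)
  have h3 := per_spec f δ z
  rw [Subgroup.coe_mul, mul_smul, h2, h3] at h1
  have h4 := add_left_cancel (a := prim f (z : ℂ)) (b := per f δ + per f γ) (c := per f (γ * δ))
    (by rw [← add_assoc]; exact h1)
  rw [← h4, add_comm]

/-- the period homomorphism -/
noncomputable def perHom (f : CuspForm (Gamma0 N : Subgroup (GL (Fin 2) ℝ)) 2) :
    Additive (Gamma0 N) →+ ℂ where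
  toFun γ := per f γ.toMul
  map_zero' := by
    have h := per_mul f 1 1
    rw [mul_one] at h
    have : per f 1 = 0 := by simpa using h
    exact this
  map_add' γ δ := per_mul f γ.toMul δ.toMul

/-- the group of the periods -/
noncomputable def PG (f : CuspForm (Gamma0 N : Subgroup (GL (Fin 2) ℝ)) 2) : AddSubgroup ℂ :=
  (perHom f).range

lemma pers_PG (f : CuspForm (Gamma0 N : Subgroup (GL (Fin 2) ℝ)) 2) : Pers f (PG f : Set ℂ) :=
  fun γ hγ => ⟨per f ⟨γ, hγ⟩, ⟨Additive.ofMul ⟨γ, hγ⟩, rfl⟩, fun z => per_spec f ⟨γ, hγ⟩ z⟩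

instance fg_SL2 : Group.FG SL(2, ℤ) :=
  ⟨⟨{ModularGroup.S, ModularGroup.T}, by
    rw [Finset.coe_insert, Finset.coe_singleton]
    exact SpecialLinearGroup.SL2Z_generators⟩⟩

instance fg_Gamma0 : Group.FG (Gamma0 N) := Subgroup.fg_of_index_ne_zero (Gamma0 N)

lemma finite_PG (f : CuspForm (Gamma0 N : Subgroup (GL (Fin 2) ℝ)) 2) : Module.Finite ℤ (PG f) := by
  have h1 : AddGroup.FG (Additive (Gamma0 N)) := inferInstance
  rw [Module.Finite.iff_addGroup_fg]
  exact AddGroup.fg_range (perHom f)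

/-- a functional which does not vanish at a given period -/
lemma exists_functional (f : CuspForm (Gamma0 N : Subgroup (GL (Fin 2) ℝ)) 2) (x : PG f)
    (hx : x ≠ 0) : ∃ l : PG f →+ ℤ, l x ≠ 0 := by
  have h1 := finite_PG f
  have h2 : Module.Free ℤ (PG f) := Module.free_of_finite_type_torsion_free'
  obtain ⟨l, hl⟩ := Module.Projective.exists_dual_ne_zero ℤ hx
  exact ⟨l.toAddMonoidHom, hl⟩

end Pool.Agent.Y18.BSD
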