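import Mathlib

/-!
The 2-adic uncertainty principle for integral combinations of the characters
`ε_U(T) = (-1)^#(T ∩ U)` of the group of finite sets with the symmetric difference.
-/

set_option autoImplicit false

open scoped symmDiff

namespace Pool.Agent.Y18.BSD

/-- the character `T ↦ (-1)^#(T ∩ U)` -/
def eps (U T : Finset ℕ) : ℤ := ∏ q ∈ T, if q ∈ U then (-1 : ℤ) else 1

lemma eps_empty (U : Finset ℕ) : eps U ∅ = 1 := by simp [eps]

lemma eps_sq (U T : Finset ℕ) : eps U T = 1 ∨ eps U T = -1 := by
  unfold eps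
  induction T using Finset.induction_on with
  | empty => simp
  | insert q T hq ih =>
    rw [Finset.prod_insert hq]
    split_ifs <;> rcases ih with h | h <;> simp [h]

/-- `∏_{q ∈ A ∆ B} g q = ∏_A g * ∏_B g` for sign functions -/
lemma prod_symmDiff {R : Type*} [CommRing R] (g : ℕ → R) (A B : Finset ℕ)
    (hg : ∀ q ∈ A ∩ B, g q ^ 2 = 1) :
    ∏ q ∈ A ∆ B, g q = (∏ q ∈ A, g q) * ∏ q ∈ B, g q := by
  classical
  have h1 : A ∆ B = (A \ B) ∪ (B \ A) := by
    ext q; simp [Finset.mem_symmDiff]
  have hd : Disjoint (A \ B) (B \ A) := by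
    rw [Finset.disjoint_left]
    intro q h1 h2
    simp only [Finset.mem_sdiff] at h1 h2
    exact h1.2 h2.1
  rw [h1, Finset.prod_union hd]
  have e1 : ∏ q ∈ A, g q = (∏ q ∈ A \ B, g q) * ∏ q ∈ A ∩ B, g q := by
    rw [← Finset.prod_union (Finset.disjoint_sdiff_inter A B), Finset.sdiff_union_inter]
  have e2 : ∏ q ∈ B, g q = (∏ q ∈ B \ A, g q) * ∏ q ∈ A ∩ B, g q := by
    rw [Finset.inter_comm, ← Finset.prod_union (Finset.disjoint_sdiff_inter B A),
      Finset.sdiff_union_inter]
  have e3 : (∏ q ∈ A ∩ B, g q) * ∏ q ∈ A ∩ B, g q = 1 := by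
    rw [← Finset.prod_mul_distrib]
    exact Finset.prod_eq_one fun q hq => by rw [← sq]; exact hg q hq
  rw [e1, e2]
  calc _ = (∏ q ∈ A \ B, g q) * (∏ q ∈ B \ A, g q) * 1 := by ring
    _ = _ := by rw [← e3]; ring

lemma eps_symmDiff (U A B : Finset ℕ) : eps U (A ∆ B) = eps U A * eps U B :=
  prod_symmDiff _ A B (fun q _ => by split_ifs <;> norm_num)

lemma eps_mul (U V T : Finset ℕ) : eps U T * eps V T = eps (U ∆ V) T := by
  unfold eps
  rw [← Finset.prod_mul_distrib]
  refine Finset.prod_congr rfl fun q _ => ?_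
  by_cases h1 : q ∈ U <;> by_cases h2 : q ∈ V <;> simp [Finset.mem_symmDiff, h1, h2]

/-- the integral combinations of the characters -/
def Comb : Submodule ℤ (Finset ℕ → ℤ) := Submodule.span ℤ (Set.range eps)

lemma eps_mem (U : Finset ℕ) : eps U ∈ Comb := Submodule.subset_span ⟨U, rfl⟩

lemma Comb.mul_mem {A B : Finset ℕ → ℤ} (hA : A ∈ Comb) (hB : B ∈ Comb) : A * B ∈ Comb := by
  induction hA using Submodule.span_induction with
  | mem x hx =>
    obtain ⟨U, rfl⟩ := hx
    induction hB using Submodule.span_induction with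
    | mem y hy =>
      obtain ⟨V, rfl⟩ := hy
      have : eps U * eps V = eps (U ∆ V) := funext fun T => eps_mul U V T
      rw [this]
      exact eps_mem _
    | zero => rw [mul_zero]; exact Comb.zero_mem
    | add x y _ _ h1 h2 => rw [mul_add]; exact Comb.add_mem h1 h2
    | smul c x _ h => rw [mul_smul_comm]; exact Comb.smul_mem c h
  | zero => rw [zero_mul]; exact Comb.zero_mem
  | add x y _ _ h1 h2 => rw [add_mul]; exact Comb.add_mem h1 h2
  | smul c x _ h => rw [smul_mul_assoc]; exact Comb.smul_mem c h

lemma Comb.one_mem : (1 : Finset ℕ → ℤ) ∈ Comb := by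
  have : (1 : Finset ℕ → ℤ) = eps ∅ := by
    funext T
    simp [eps]
  rw [this]
  exact eps_mem _

lemma Comb.prod_mem {ι : Type*} (s : Finset ι) (A : ι → Finset ℕ → ℤ) (h : ∀ i ∈ s, A i ∈ Comb) :
    ∏ i ∈ s, A i ∈ Comb := by
  classical
  induction s using Finset.induction_on with
  | empty => rw [Finset.prod_empty]; exact Comb.one_mem
  | insert i s hi ih =>
    rw [Finset.prod_insert hi]
    exact Comb.mul_mem (h i (Finset.mem_insert_self i s))
      (ih fun j hj => h j (Finset.mem_insert_of_mem hj))

/-- translation and halving -/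
lemma Comb.shift {A : Finset ℕ → ℤ} (hA : A ∈ Comb) (T0 : Finset ℕ) :
    (fun T => A (T0 ∆ T)) ∈ Comb ∧ ∃ C ∈ Comb, ∀ T, A T - A (T0 ∆ T) = 2 * C T := by
  induction hA using Submodule.span_induction with
  | mem x hx =>
    obtain ⟨U, rfl⟩ := hx
    have h1 : (fun T => eps U (T0 ∆ T)) = eps U T0 • eps U := by
      funext T
      rw [eps_symmDiff]; rfl
    refine ⟨by rw [h1]; exact Comb.smul_mem _ (eps_mem U), ?_⟩
    rcases eps_sq U T0 with h | h
    · refine ⟨0, Comb.zero_mem, fun T => ?_⟩
      rw [eps_symmDiff, h]; simp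
    · refine ⟨eps U, eps_mem U, fun T => ?_⟩
      rw [eps_symmDiff, h]; ring
  | zero => exact ⟨Comb.zero_mem, 0, Comb.zero_mem, fun T => by simp⟩
  | add x y _ _ h1 h2 =>
    obtain ⟨h3, C, hC, h4⟩ := h1
    obtain ⟨h5, D, hD, h6⟩ := h2
    refine ⟨Comb.add_mem h3 h5, C + D, Comb.add_mem hC hD, fun T => ?_⟩
    have e1 := h4 T
    have e2 := h6 T
    simp only [Pi.add_apply]
    linarith
  | smul c x _ h =>
    obtain ⟨h3, C, hC, h4⟩ := h
    refine ⟨Comb.smul_mem c h3, c • C, Comb.smul_mem c hC, fun T => ?_⟩
    have e1 := h4 T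
    simp only [Pi.smul_apply, smul_eq_mul]
    rw [← mul_sub, e1]; ring

open Classical in
/-- **The uncertainty principle.** -/
theorem uncertainty (n : ℕ) : ∀ (H : Finset (Finset ℕ)), H.card ≤ n → ∅ ∈ H →
    (∀ S ∈ H, ∀ T ∈ H, S ∆ T ∈ H) → ∀ (A : Finset ℕ → ℤ), A ∈ Comb → ∀ V : ℕ,
    ¬ (2 : ℤ) ^ (V + 1) ∣ A ∅ → H.card ≤ 2 ^ V * (H.filter (fun T => A T ≠ 0)).card := by
  induction n with
  | zero =>
    intro H hn h0
    rw [Nat.le_zero, Finset.card_eq_zero] at hn
    subst hn
    simp at h0
  | succ n ih =>
    intro H hn h0 hH A hA V hV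
    by_cases hT : ∃ T0 ∈ H, T0 ≠ ∅
    · obtain ⟨T0, hT0, hne⟩ := hT
      obtain ⟨q, hq⟩ := Finset.nonempty_of_ne_empty hne
      set H0 := H.filter (fun T => q ∉ T) with hH0
      set H1 := H.filter (fun T => q ∈ T) with hH1
      -- the bijection
      have hinv : ∀ T : Finset ℕ, T0 ∆ (T0 ∆ T) = T := fun T => symmDiff_symmDiff_cancel_left T0 T
      have himg : H0.image (fun T => T0 ∆ T) = H1 := by
        ext T
        simp only [Finset.mem_image, hH0, hH1, Finset.mem_filter]
        constructor
        · rintro ⟨T', ⟨h1, h2⟩, rfl⟩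
          refine ⟨hH _ hT0 _ h1, ?_⟩
          rw [Finset.mem_symmDiff]
          exact Or.inl ⟨hq, h2⟩
        · rintro ⟨h1, h2⟩
          refine ⟨T0 ∆ T, ⟨hH _ hT0 _ h1, ?_⟩, hinv T⟩
          rw [Finset.mem_symmDiff]
          rintro (h | h)
          · exact h.2 h2
          · exact h.2 hq
      have hinj : Set.InjOn (fun T => T0 ∆ T) (H0 : Set (Finset ℕ)) := by
        intro T _ T' _ h
        have h' : T0 ∆ T = T0 ∆ T' := h
        rw [← hinv T, h', hinv T']
      have hcard1 : H1.card = H0.card := by
        rw [← himg, Finset.card_image_of_injOn hinj]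
      have hsplit : H.card = H0.card + H1.card := by
        rw [add_comm, hH0, hH1, Finset.card_filter_add_card_filter_not]
      have hpos : 0 < H0.card := Finset.card_pos.2 ⟨∅, by simp [hH0, h0]⟩
      have hle : H0.card ≤ n := by omega
      have h00 : ∅ ∈ H0 := by simp [hH0, h0]
      have hcl : ∀ S ∈ H0, ∀ T ∈ H0, S ∆ T ∈ H0 := by
        intro S hS T hT
        simp only [hH0, Finset.mem_filter] at hS hT ⊢
        refine ⟨hH _ hS.1 _ hT.1, ?_⟩
        rw [Finset.mem_symmDiff]
        rintro (h | h)
        · exact hS.2 h.1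
        · exact hT.2 h.1
      obtain ⟨hA', C, hC, hCe⟩ := Comb.shift hA T0
      -- the counts
      have hcount : (H.filter (fun T => A T ≠ 0)).card = (H0.filter (fun T => A T ≠ 0)).card +
          (H0.filter (fun T => A (T0 ∆ T) ≠ 0)).card := by
        have e1 : (H.filter (fun T => A T ≠ 0)).card = (H0.filter (fun T => A T ≠ 0)).card +
            (H1.filter (fun T => A T ≠ 0)).card := by
          rw [hH0, hH1, Finset.filter_filter, Finset.filter_filter,
            ← Finset.card_union_of_disjoint]
          · congr 1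
            ext T
            simp only [Finset.mem_filter, Finset.mem_union]
            tauto
          · rw [Finset.disjoint_left]
            intro T h1 h2
            simp only [Finset.mem_filter] at h1 h2
            exact h1.2.1 h2.2.1
        rw [e1]
        congr 1
        rw [← himg, Finset.filter_image, Finset.card_image_of_injOn]
        exact hinj.mono (by
          intro T hT
          exact Finset.mem_coe.2 (Finset.mem_of_mem_filter T (Finset.mem_coe.1 hT)))
      rw [hcount]
      by_cases h2 : (2 : ℤ) ^ (V + 1) ∣ A (T0 ∆ ∅)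
      · -- halving
        have hCe0 := hCe ∅
        rcases V with _ | V
        · exfalso
          apply hV
          rw [zero_add, pow_one] at h2 ⊢
          have : (2 : ℤ) ∣ A ∅ - A (T0 ∆ ∅) := ⟨_, hCe0⟩
          have h3 := dvd_add this h2
          simpa using h3
        · have hCV : ¬ (2 : ℤ) ^ (V + 1) ∣ C ∅ := by
            intro h3
            apply hV
            have h4 : (2 : ℤ) ^ (V + 1 + 1) ∣ A ∅ - A (T0 ∆ ∅) := by
              rw [hCe0, pow_succ, mul_comm]
              exact mul_dvd_mul_left 2 h3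
            have h5 := dvd_add h4 h2
            simpa using h5
          have h6 := ih H0 hle h00 hcl C hC V hCV
          have h7 : (H0.filter (fun T => C T ≠ 0)).card ≤ (H0.filter (fun T => A T ≠ 0)).card +
              (H0.filter (fun T => A (T0 ∆ T) ≠ 0)).card := by
            refine le_trans (Finset.card_le_card ?_) (Finset.card_union_le _ _)
            intro T hT
            simp only [Finset.mem_filter, Finset.mem_union] at hT ⊢
            by_contra hcon
            push Not at hcon
            have h8 := hcon.1 hT.1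
            have h9 := hcon.2 hT.1
            have h10 := hCe T
            rw [h8, h9] at h10
            apply hT.2
            omega
          calc H.card = 2 * H0.card := by omega
            _ ≤ 2 * (2 ^ V * ((H0.filter (fun T => A T ≠ 0)).card +
              (H0.filter (fun T => A (T0 ∆ T) ≠ 0)).card)) := by
                apply Nat.mul_le_mul_left
                exact h6.trans (Nat.mul_le_mul_left _ h7)
            _ = _ := by ring
      · have h3 := ih H0 hle h00 hcl A hA V hV
        have h4 := ih H0 hle h00 hcl (fun T => A (T0 ∆ T)) hA' V h2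
        rw [mul_add]
        omega
    · push Not at hT
      have hH' : H = {∅} := by
        ext T
        simp only [Finset.mem_singleton]
        exact ⟨fun h => hT T h, fun h => h ▸ h0⟩
      have hA0 : A ∅ ≠ 0 := by
        intro h
        apply hV
        rw [h]
        exact dvd_zero _
      rw [hH', Finset.filter_singleton, if_pos hA0, Finset.card_singleton, mul_one]
      exact Nat.one_le_two_pow

end Pool.Agent.Y18.BSD
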